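import Mathlib
import Pool.Agent.L7h67.WA.Stm

/-!
# Project WB: Waring's problem with ONE common shift, `O(k)` summands for almost every shift

Statements. `Pool.Agent.L7h67.WA.{gs, WS, WI, GI, GS, Dio}` as in project WA.
-/

set_option autoImplicit false

namespace Pool.Agent.L7h67.WB

open Finset MeasureTheory Polynomial Filter
open Pool.Agent.L7h67.WA (gs WS WI GI GS Dio)

/-- A one-parameter family of functions of size `x^k`; `Φ1`, `Φ2` are the derivatives with respect to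
the parameter `θ`. Examples: `g(x - θ)` and `g(x) + θ x^(k-1)`. -/
def Fam (k : ℕ) (Φ Φ1 Φ2 : ℝ → ℝ → ℝ) : Prop :=
  (∀ θ x, HasDerivAt (fun t => Φ t x) (Φ1 θ x) θ) ∧
  (∀ θ x, HasDerivAt (fun t => Φ1 t x) (Φ2 θ x) θ) ∧
  ∀ R : ℝ, ∃ c C Q0 γ : ℝ, 0 < c ∧ 1 ≤ C ∧ 1 ≤ Q0 ∧ ∀ θ, |θ| ≤ R → ∀ Q : ℝ, Q0 ≤ Q →
    (∀ u, Q ≤ u → u ≤ 32 * Q →
      |Φ θ u| ≤ C * Q ^ k ∧ |Φ1 θ u| ≤ C * Q ^ (k - 1) ∧ |Φ2 θ u| ≤ C * Q ^ (k - 2)) ∧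
    (∀ u v, Q ≤ u → u ≤ v → v ≤ 32 * Q → c * Q ^ (k - 1) * (v - u) ≤ Φ θ v - Φ θ u) ∧
    (∀ u v, Q ≤ u → u ≤ v → v ≤ 4 * Q →
      Φ θ v - Φ θ u - γ * Q * (Φ1 θ v - Φ1 θ u) ≤ -(c * Q ^ (k - 1) * (v - u))) ∧
    (∀ u v, 8 * Q ≤ u → u ≤ v → v ≤ 32 * Q →
      c * Q ^ (k - 1) * (v - u) ≤ Φ θ v - Φ θ u - γ * Q * (Φ1 θ v - Φ1 θ u))

/-- FAMS: shifts (`γ = -6/(k-1)`; `g' ~ k λ x^(k-1)`, `g'' ~ k (k-1) λ x^(k-2)`, mean value theorem). -/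
def S_FAMS : Prop := ∀ (k : ℕ) (g : ℝ[X]), 3 ≤ k → g.natDegree = k → 0 < g.leadingCoeff →
  Fam k (fun θ x => g.eval (x - θ)) (fun θ x => -(derivative g).eval (x - θ))
    (fun θ x => (derivative (derivative g)).eval (x - θ))

/-- FAML: the linear family (`γ = 6 k λ/(k-1)`). -/
def S_FAML : Prop := ∀ (k : ℕ) (g : ℝ[X]), 3 ≤ k → g.natDegree = k → 0 < g.leadingCoeff →
  Fam k (fun θ x => g.eval x + θ * x ^ (k - 1)) (fun _ x => x ^ (k - 1)) (fun _ _ => 0)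

/-- number of solutions for one pair of variables of size `Q` -/
noncomputable def step (k : ℕ) (Q V T : ℝ) : ℝ :=
  min (Q ^ 2) (min (Q * (1 + V / Q ^ (k - 1)))
    ((1 + V / Q ^ (k - 1)) * (1 + V / Q ^ (k - 1) + T / Q ^ (k - 2))))

/-- PAIR: from `Fam`. Two solutions `(u, v), (u', v')`: if `u - u'`, `v - v'` have the same sign, then
`|u - u'| + |v - v'| ≤ 2 V / (c Q^(k-1))` by the monotonicity of `Φ`; if opposite, use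
`Φ - γ Q Φ1`. So `u` takes `≪ 1 + V/Q^(k-1) + T/Q^(k-2)` values, and given `u` the number of `v` is
`≪ 1 + V/Q^(k-1)`. -/
def S_PAIR : Prop := ∀ (k : ℕ) (Φ Φ1 Φ2 : ℝ → ℝ → ℝ), Fam k Φ Φ1 Φ2 → 2 ≤ k → ∀ R : ℝ,
  ∃ K Q0 : ℝ, 1 ≤ K ∧ 1 ≤ Q0 ∧ ∀ θ, |θ| ≤ R → ∀ Q : ℝ, Q0 ≤ Q → ∀ V T c1 c2 : ℝ, 0 ≤ V → 0 ≤ T →
  ∀ X : Finset (ℕ × ℕ),
  (∀ x ∈ X, Q ≤ (x.1 : ℝ) ∧ (x.1 : ℝ) ≤ 4 * Q ∧ 8 * Q ≤ (x.2 : ℝ) ∧ (x.2 : ℝ) ≤ 32 * Q) →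
  (∀ x ∈ X, |Φ θ x.1 + Φ θ x.2 - c1| ≤ V ∧ |Φ1 θ x.1 + Φ1 θ x.2 - c2| ≤ T) →
  (#X : ℝ) ≤ K * step k Q V T

/-- COUNT: from PAIR by induction on `n` (remove the last, smallest, level: `Fin.init`; the first
`n - 1` levels satisfy the conditions with `V + 2 C Q_(n-1)^k`, `T + 2 C Q_(n-1)^(k-1)`, which changes
each factor `step` at most by a constant, because of the condition on `Q`). -/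
def S_COUNT : Prop := ∀ (k : ℕ) (Φ Φ1 Φ2 : ℝ → ℝ → ℝ), Fam k Φ Φ1 Φ2 → 2 ≤ k →
  ∀ (R B : ℝ) (n : ℕ), 1 ≤ B → ∃ K Q0 : ℝ, 1 ≤ K ∧ 1 ≤ Q0 ∧ ∀ θ, |θ| ≤ R → ∀ Q : ℕ → ℝ,
  (∀ i < n, Q0 ≤ Q i) →
  (∀ i j, i < j → j < n → Q j ^ k ≤ B * Q i ^ (k - 1) ∧ Q j ^ (k - 1) ≤ B * Q i ^ (k - 2)) →
  ∀ V T c1 c2 : ℝ, 0 ≤ V → 0 ≤ T → ∀ X : Finset (Fin n → ℕ × ℕ),
  (∀ x ∈ X, ∀ i : Fin n, Q i ≤ ((x i).1 : ℝ) ∧ ((x i).1 : ℝ) ≤ 4 * Q i ∧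
    8 * Q i ≤ ((x i).2 : ℝ) ∧ ((x i).2 : ℝ) ≤ 32 * Q i) →
  (∀ x ∈ X, |∑ i, (Φ θ (x i).1 + Φ θ (x i).2) - c1| ≤ V ∧
    |∑ i, (Φ1 θ (x i).1 + Φ1 θ (x i).2) - c2| ≤ T) →
  (#X : ℝ) ≤ K * ∏ i ∈ range n, step k (Q i) V T

/-- the scales `P^(ρ^i)`, `ρ = (k-2)/(k-1)` -/
noncomputable def qs (k : ℕ) (P : ℝ) (i : ℕ) : ℝ := P ^ ((((k : ℝ) - 2) / ((k : ℝ) - 1)) ^ i)

/-- `T min(1, T / P^(k-2))` -/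
noncomputable def vz (k : ℕ) (P T : ℝ) : ℝ := T * min 1 (T / P ^ (k - 2))

/-- NUM: an inequality for real numbers. Write `T = P^t`, `ρ = (k-2)/(k-1)`. If `T ≥ P^(k-2)`: level 0
with the third term of `step`, the others with `Q^2`. If `(k-2)/2 ≤ t ≤ k-2`: let `j` be the least
`j ≥ 1` with `ρ^j ≤ t/(k-2)` and `j'` the least `j' ≤ J` with `ρ^j' ≤ (2t-k+2)/(k-1)` (or `j' = J`);
levels `i < j`: third term (there `T ≤ Q^(k-2)`, `V ≤ L Q^(k-1)`, value `≤ 6 L^2`), levels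
`j ≤ i < j'`: second term (`V ≤ L Q^(k-1)`, value `≤ 2 L Q`), others `Q^2`. The exponent saved is
`∑_(i<j) 2 ρ^i + ∑_(j≤i<j') ρ^i = (k-1)(2 - ρ^j - ρ^j')` and it has to be at least `2(k-1-t)`, i.e.
`a + b ≤ 2t/(k-1)` for `a = ρ^j`, `b = ρ^j'`: if `t ≤ ρ(k-2)` then `a ≤ t/(k-2)` and `b` is
at most `(2t-k+2)/(k-1)` or `1/2 - 1/(k-1)`, and both suffice; if `t > ρ(k-2)` then `j = 1`, `a = ρ`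
and `b ≤ (2t-k+2)/(k-1)` is what is needed (and `1/2 - 1/(k-1)` is at most this for `k ≥ 5`). -/
def S_NUM : Prop := ∀ k J : ℕ, 5 ≤ k →
  (((k : ℝ) - 2) / ((k : ℝ) - 1)) ^ J ≤ 1 / 2 - 1 / ((k : ℝ) - 1) →
  ∀ P L T V : ℝ, 1 ≤ P → 1 ≤ L → P ^ (((k : ℝ) - 2) / 2) ≤ T → T ≤ L * P ^ (k - 1) →
  0 ≤ V → V ≤ L * vz k P T →
  ∏ i ∈ range J, step k (qs k P i) V T ≤
    (4 * L ^ 2) ^ (2 * J) * (∏ i ∈ range J, qs k P i ^ 2) * (vz k P T / P ^ k)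

/-- NUMJ: `(1 - 1/n)^J ≤ exp(-J/n)`, `n = k - 1`, `J ≥ 0.7 n + 3`. -/
def S_NUMJ : Prop := ∀ k J : ℕ, 5 ≤ k → 7 * k + 23 ≤ 10 * J →
  (((k : ℝ) - 2) / ((k : ℝ) - 1)) ^ J ≤ 1 / 2 - 1 / ((k : ℝ) - 1)

/-- WIN: sublevel sets by windows. The window number `j` is `[-R + j Δ, -R + (j+1) Δ]`. If it contains a
point `θ₀` with `|f θ₀| ≤ L`, `|f1 θ₀| ≤ 2T` then the conditions of the filter hold at its left end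
point; if moreover `T ≤ |f1 θ₀|`, then `|f1| ≥ T/2` on the window. -/
def S_WIN : Prop := ∀ (f f1 f2 : ℝ → ℝ) (R M L T Δ : ℝ), (∀ θ, HasDerivAt f (f1 θ) θ) →
  (∀ θ, HasDerivAt f1 (f2 θ) θ) → 1 ≤ R → 1 ≤ M → (∀ θ, |θ| ≤ R + 2 → |f2 θ| ≤ M) → 1 ≤ L →
  Real.sqrt M ≤ T → Δ = min 1 (T / (8 * M)) →
  volume {θ : ℝ | |θ| ≤ R ∧ |f θ| ≤ L ∧ T ≤ |f1 θ| ∧ |f1 θ| ≤ 2 * T} ≤
    ENNReal.ofReal (4 * L / T * (open Classical in #{j ∈ range (⌈2 * R / Δ⌉₊ + 1) |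
      |f (-R + (j : ℕ) * Δ)| ≤ L + 4 * T * Δ ∧ |f1 (-R + (j : ℕ) * Δ)| ≤ 4 * T} : ℕ)) ∧
  volume {θ : ℝ | |θ| ≤ R ∧ |f θ| ≤ L ∧ |f1 θ| ≤ T} ≤
    ENNReal.ofReal (Δ * (open Classical in #{j ∈ range (⌈2 * R / Δ⌉₊ + 1) |
      |f (-R + (j : ℕ) * Δ)| ≤ L + 4 * T * Δ ∧ |f1 (-R + (j : ℕ) * Δ)| ≤ 4 * T} : ℕ))

/-- INT: from WIN, dyadic decomposition `T = 2^h √M` of the values of `|f1|`. -/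
def S_INT : Prop := ∀ (α : Type) (Y : Finset α) (f f1 f2 : α → ℝ → ℝ) (R M L A Tm : ℝ),
  (∀ p θ, HasDerivAt (f p) (f1 p θ) θ) → (∀ p θ, HasDerivAt (f1 p) (f2 p θ) θ) →
  1 ≤ R → 1 ≤ M → 1 ≤ L → 0 ≤ A → Real.sqrt M ≤ Tm →
  (∀ p ∈ Y, ∀ θ, |θ| ≤ R + 2 → |f2 p θ| ≤ M) → (∀ p ∈ Y, ∀ θ, |θ| ≤ R + 2 → |f1 p θ| ≤ Tm) →
  (∀ θ, |θ| ≤ R + 2 → ∀ T, Real.sqrt M ≤ T → T ≤ 2 * Tm → ∀ X : Finset α, X ⊆ Y →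
    (∀ p ∈ X, |f p θ| ≤ 8 * L * (T * min 1 (T / M)) ∧ |f1 p θ| ≤ 4 * T) →
    (#X : ℝ) ≤ A * (T * min 1 (T / M))) →
  ∑ p ∈ Y, volume {θ : ℝ | |θ| ≤ R ∧ |f p θ| ≤ L} ≤
    ENNReal.ofReal (1000 * R * L * A * (1 + Real.log Tm))

/-- the block of `2 J` variables -/
noncomputable def blk (k J : ℕ) (P : ℝ) : Finset (Fin J → ℕ × ℕ) :=
  Fintype.piFinset fun i : Fin J =>
    Ioc ⌊qs k P i⌋₊ ⌊4 * qs k P i⌋₊ ×ˢ Ioc ⌊8 * qs k P i⌋₊ ⌊32 * qs k P i⌋₊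

/-- the value of the block -/
noncomputable def gb {J : ℕ} (φ : ℝ → ℝ) (x : Fin J → ℕ × ℕ) : ℝ :=
  ∑ i, (φ (x i).1 + φ (x i).2)

/-- the optimal mean value -/
def MVB (k : ℕ) (α : Type) (X : ℕ → Finset α) (G : α → ℝ) : Prop :=
  ∀ ε : ℝ, 0 < ε → ∃ δ : ℝ, 0 < δ ∧ ∀ᶠ l : ℕ in atTop, ∀ Y : Finset (α × α), Y ⊆ X l ×ˢ X l →
    (∀ p ∈ Y, |G p.1 - G p.2| ≤ ((2 : ℝ) ^ l) ^ δ) →
    (#Y : ℝ) ≤ (#(X l) : ℝ) ^ 2 * ((2 : ℝ) ^ l) ^ (-(k : ℝ) + ε)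

/-- MVS: from COUNT, NUM, INT and `Pool.Agent.L7h37.WA.s_BC` (helper67). -/
def S_MVS : Prop := ∀ k J : ℕ, 5 ≤ k →
  (((k : ℝ) - 2) / ((k : ℝ) - 1)) ^ J ≤ 1 / 2 - 1 / ((k : ℝ) - 1) →
  ∀ Φ Φ1 Φ2 : ℝ → ℝ → ℝ, Fam k Φ Φ1 Φ2 → ∀ᵐ θ : ℝ,
  MVB k (Fin J → ℕ × ℕ) (fun l => blk k J ((2 : ℝ) ^ l)) (gb (Φ θ))

/-- what the circle method needs to know about a block -/
def GoodBlk (k : ℕ) (α : Type) (X : ℕ → Finset α) (G : α → ℝ) : Prop :=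
  (∃ C : ℝ, ∀ᶠ l : ℕ in atTop, ∀ x ∈ X l, |G x| ≤ C * ((2 : ℝ) ^ l) ^ k) ∧
  (∀ᶠ l : ℕ in atTop, (X l).Nonempty) ∧
  (∀ ε : ℝ, 0 < ε → ∀ᶠ l : ℕ in atTop, ∑ x ∈ X l, ∑ x' ∈ X l, gs 1 (G x - G x') ≤
    (#(X l) : ℝ) ^ 2 * ((2 : ℝ) ^ l) ^ (-(k : ℝ) + ε))

/-- GMB: passage from `G₀` to a function `G` at bounded distance (integer parts). -/
def S_GMB : Prop := ∀ (k : ℕ) (α : Type) (X : ℕ → Finset α) (G₀ G : α → ℝ) (B : ℝ),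
  (∀ x, |G x - G₀ x| ≤ B) → MVB k α X G₀ → ∀ ε : ℝ, 0 < ε → ∀ᶠ l : ℕ in atTop,
    ∑ x ∈ X l, ∑ x' ∈ X l, gs 1 (G x - G x') ≤
      (#(X l) : ℝ) ^ 2 * ((2 : ℝ) ^ l) ^ (-(k : ℝ) + ε)

/-- GIL: lower bound for the last variable (mean value theorem; `L7h22/WA/Maint.lean`, `GI_low`, or
`s_MAINT` with `ι = Fin 0`). -/
def S_GIL : Prop := ∀ (k : ℕ) (F0 : ℝ[X]) (a0 : ℕ), 1 ≤ k → F0.natDegree = k → 0 < F0.leadingCoeff →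
  1 ≤ a0 → ∃ c : ℝ, 0 < c ∧ ∀ᶠ P : ℕ in atTop, ∀ w : ℝ, 0 < w → w ≤ 1 → ∀ τ : ℝ,
    F0.eval (3 / 2 * ((a0 : ℝ) * P)) ≤ τ → τ ≤ F0.eval (3 * ((a0 : ℝ) * P)) →
    c * w / (P : ℝ) ^ (k - 1) ≤ GI F0 a0 P w τ

/-- FINE: circle method with two good blocks and one more variable, every large `τ`. Choose the
integer `A` large in terms of the constants `C` of the blocks; for `P = 2^l` use `a0 = 2A` if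
`τ ∈ [F0(7/2 A P), F0(6 A P)]` and `a0 = 3A` if `τ ∈ [F0(5 A P), F0(9 A P)]`: then
`τ - GA x - GB y` is in the range of GIL for all `x, y`. Then CORE, SUP as in `L7h67/WA/FinA.lean`;
`c = σ/(16k)`. (helper67) -/
def S_FINE : Prop := ∀ k : ℕ, 2 ≤ k → ∃ c : ℝ, 0 < c ∧ ∀ (α β : Type) (XA : ℕ → Finset α)
  (XB : ℕ → Finset β) (GA : α → ℝ) (GB : β → ℝ) (F0 : ℝ[X]), GoodBlk k α XA GA →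
  GoodBlk k β XB GB → F0.natDegree = k → 0 < F0.leadingCoeff →
  Dio (F0.coeff (k - 1) / F0.coeff k) → ∀ M : ℕ,
  ∀ᶠ τ : ℝ in atTop, ∃ l : ℕ, M ≤ l ∧ ∃ x ∈ XA l, ∃ y ∈ XB l, ∃ z : ℕ, M ≤ z ∧
    |GA x + GB y + F0.eval (z : ℝ) - τ| < τ ^ (-c)

/-- FINE2: one good block and one more variable, almost all integers. -/
def S_FINE2 : Prop := ∀ k : ℕ, 2 ≤ k → ∃ c : ℝ, 0 < c ∧ ∀ (α : Type) (XA : ℕ → Finset α)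
  (GA : α → ℝ) (F0 : ℝ[X]), GoodBlk k α XA GA → F0.natDegree = k → 0 < F0.leadingCoeff →
  Dio (F0.coeff (k - 1) / F0.coeff k) → ∀ M : ℕ, ∀ κ : ℝ,
  ∀ᶠ N : ℕ in atTop, ∀ Z : Finset ℕ, (∀ n ∈ Z, n ≤ N) →
    (∀ n ∈ Z, ∀ l : ℕ, M ≤ l → ∀ x ∈ XA l, ∀ z : ℕ, M ≤ z →
      (N : ℝ) ^ (-c) ≤ |GA x + F0.eval (z : ℝ) - (n + κ)|) →
    (#Z : ℝ) ≤ (N : ℝ) ^ (1 - c)

end Pool.Agent.L7h67.WB
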