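import Mathlib
import Pool.Agent.L7h67.WB.Stm

set_option autoImplicit false

namespace Pool.Agent.L7h67.WB

open Finset MeasureTheory Polynomial Filter

lemma rho_pos (k : ℕ) (hk : 5 ≤ k) : 0 < ((k : ℝ) - 2) / ((k : ℝ) - 1) ∧
    ((k : ℝ) - 2) / ((k : ℝ) - 1) ≤ 1 := by
  have h : (5 : ℝ) ≤ k := by exact_mod_cast hk
  constructor
  · apply div_pos <;> linarith
  · rw [div_le_one (by linarith)]; linarith

lemma qs_ge_one (k : ℕ) (hk : 5 ≤ k) (P : ℝ) (hP : 1 ≤ P) (i : ℕ) : 1 ≤ qs k P i := by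
  unfold qs
  exact Real.one_le_rpow hP (pow_nonneg (rho_pos k hk).1.le i)

lemma qs_le (k : ℕ) (hk : 5 ≤ k) (P : ℝ) (hP : 1 ≤ P) (i : ℕ) : qs k P i ≤ P := by
  unfold qs
  conv_rhs => rw [← Real.rpow_one P]
  apply Real.rpow_le_rpow_of_exponent_le hP
  exact pow_le_one₀ (rho_pos k hk).1.le (rho_pos k hk).2

lemma qs_lower (k : ℕ) (hk : 5 ≤ k) (P : ℝ) (hP : 1 ≤ P) (J i : ℕ) (hi : i ≤ J) :
    qs k P J ≤ qs k P i := by
  unfold qs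
  apply Real.rpow_le_rpow_of_exponent_le hP
  exact pow_le_pow_of_le_one (rho_pos k hk).1.le (rho_pos k hk).2 hi

lemma qs_tendsto (k : ℕ) (hk : 5 ≤ k) (J : ℕ) : Tendsto (fun P : ℝ => qs k P J) atTop atTop := by
  unfold qs
  exact tendsto_rpow_atTop (pow_pos (rho_pos k hk).1 J)

lemma qs_cond (k : ℕ) (hk : 5 ≤ k) (P : ℝ) (hP : 1 ≤ P) (i j : ℕ) (hij : i < j) :
    qs k P j ^ k ≤ 1 * qs k P i ^ (k - 1) ∧ qs k P j ^ (k - 1) ≤ 1 * qs k P i ^ (k - 2) := by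
  have hP0 : 0 < P := by linarith
  have h5 : (5 : ℝ) ≤ k := by exact_mod_cast hk
  obtain ⟨ρ, hρ⟩ : ∃ ρ : ℝ, ρ = ((k : ℝ) - 2) / ((k : ℝ) - 1) := ⟨_, rfl⟩
  have h1 := (rho_pos k hk).1
  have h2 := (rho_pos k hk).2
  have hρj : ρ ^ j ≤ ρ ^ i * ρ := by
    rw [← pow_succ]
    rw [← hρ] at h1 h2
    exact pow_le_pow_of_le_one h1.le h2 (by omega)
  have hk1 : ((k - 1 : ℕ) : ℝ) = (k : ℝ) - 1 := by rw [Nat.cast_sub (by omega)]; simp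
  have hk2 : ((k - 2 : ℕ) : ℝ) = (k : ℝ) - 2 := by rw [Nat.cast_sub (by omega)]; simp
  have hρi : 0 ≤ ρ ^ i := by rw [hρ]; exact pow_nonneg h1.le i
  have hρk : ρ * ((k : ℝ) - 1) = (k : ℝ) - 2 := by
    rw [hρ, div_mul_cancel₀]; linarith
  have e : ∀ (a : ℝ) (n : ℕ), (P ^ a) ^ n = P ^ (a * n) := by
    intro a n
    rw [← Real.rpow_natCast, ← Real.rpow_mul hP0.le]
  unfold qs
  rw [← hρ, one_mul, one_mul, e, e, e, e, hk1, hk2]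
  constructor
  · apply Real.rpow_le_rpow_of_exponent_le hP
    have h3 : ρ * k ≤ (k : ℝ) - 1 := by
      rw [hρ] at hρk ⊢
      nlinarith
    have h4 : (0 : ℝ) ≤ k := by linarith
    calc ρ ^ j * k ≤ ρ ^ i * ρ * k := mul_le_mul_of_nonneg_right hρj h4
      _ = ρ ^ i * (ρ * k) := by ring
      _ ≤ ρ ^ i * ((k : ℝ) - 1) := mul_le_mul_of_nonneg_left h3 hρi
  · apply Real.rpow_le_rpow_of_exponent_le hP
    have h4 : (0 : ℝ) ≤ (k : ℝ) - 1 := by linarith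
    calc ρ ^ j * ((k : ℝ) - 1) ≤ ρ ^ i * ρ * ((k : ℝ) - 1) := mul_le_mul_of_nonneg_right hρj h4
      _ = ρ ^ i * (ρ * ((k : ℝ) - 1)) := by ring
      _ = ρ ^ i * ((k : ℝ) - 2) := by rw [hρk]

lemma blk_card (k : ℕ) (hk : 5 ≤ k) (J : ℕ) (P : ℝ) (hP : 1 ≤ P) :
    ∏ i ∈ range J, qs k P i ^ 2 ≤ (#(blk k J P) : ℝ) := by
  unfold blk
  rw [Fintype.card_piFinset, prod_range]
  push_cast
  apply Finset.prod_le_prod
  · intro i _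
    have := qs_ge_one k hk P hP i
    positivity
  · intro i _
    rw [card_product, Nat.card_Ioc, Nat.card_Ioc]
    have h1 := qs_ge_one k hk P hP i
    obtain ⟨q, hq⟩ : ∃ q : ℝ, q = qs k P i := ⟨_, rfl⟩
    rw [← hq] at h1 ⊢
    have a1 := Nat.floor_le (show 0 ≤ q by linarith)
    have a2 := Nat.lt_floor_add_one (4 * q)
    have a3 := Nat.floor_le (show 0 ≤ 8 * q by linarith)
    have a4 := Nat.lt_floor_add_one (32 * q)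
    have b1 : ⌊q⌋₊ ≤ ⌊4 * q⌋₊ := Nat.floor_le_floor (by linarith)
    have b2 : ⌊8 * q⌋₊ ≤ ⌊32 * q⌋₊ := Nat.floor_le_floor (by linarith)
    push_cast [Nat.cast_sub b1, Nat.cast_sub b2]
    have c1 : q ≤ (⌊4 * q⌋₊ : ℝ) - ⌊q⌋₊ := by linarith
    have c2 : q ≤ (⌊32 * q⌋₊ : ℝ) - ⌊8 * q⌋₊ := by linarith
    rw [sq]
    exact mul_le_mul c1 c2 (by linarith) (by linarith)

lemma blk_mem (k : ℕ) (hk : 5 ≤ k) (J : ℕ) (P : ℝ) (hP : 1 ≤ P) (x : Fin J → ℕ × ℕ)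
    (hx : x ∈ blk k J P) (i : Fin J) : qs k P i ≤ ((x i).1 : ℝ) ∧ ((x i).1 : ℝ) ≤ 4 * qs k P i ∧
    8 * qs k P i ≤ ((x i).2 : ℝ) ∧ ((x i).2 : ℝ) ≤ 32 * qs k P i := by
  unfold blk at hx
  rw [Fintype.mem_piFinset] at hx
  have h := hx i
  rw [mem_product, mem_Ioc, mem_Ioc] at h
  have h1 := qs_ge_one k hk P hP i
  obtain ⟨q, hq⟩ : ∃ q : ℝ, q = qs k P i := ⟨_, rfl⟩
  rw [← hq] at h h1 ⊢
  obtain ⟨⟨a, b⟩, c, d⟩ := h
  refine ⟨(Nat.lt_of_floor_lt a).le, ?_, (Nat.lt_of_floor_lt c).le, ?_⟩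
  · exact (Nat.le_floor_iff (by linarith)).1 b
  · exact (Nat.le_floor_iff (by linarith)).1 d

lemma gb_bound (J : ℕ) (φ : ℝ → ℝ) (x : Fin J → ℕ × ℕ) (B : ℝ)
    (h : ∀ i, |φ (x i).1| ≤ B ∧ |φ (x i).2| ≤ B) : |gb φ x| ≤ 2 * J * B := by
  unfold gb
  refine (abs_sum_le_sum_abs _ _).trans ?_
  have h1 : ∀ i ∈ (univ : Finset (Fin J)), |φ (x i).1 + φ (x i).2| ≤ 2 * B := by
    intro i _
    refine (abs_add_le _ _).trans ?_
    have := h i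
    linarith [this.1, this.2]
  refine (sum_le_sum h1).trans ?_
  rw [sum_const, card_univ, Fintype.card_fin, nsmul_eq_mul]
  exact le_of_eq (by ring)

lemma gb_deriv (J : ℕ) (Φ Φ1 : ℝ → ℝ → ℝ) (h : ∀ θ x, HasDerivAt (fun t => Φ t x) (Φ1 θ x) θ)
    (x : Fin J → ℕ × ℕ) (θ : ℝ) : HasDerivAt (fun t => gb (Φ t) x) (gb (Φ1 θ) x) θ := by
  unfold gb
  apply HasDerivAt.fun_sum
  intro i _
  exact (h θ _).add (h θ _)

end Pool.Agent.L7h67.WB
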