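import Mathlib
import Pool.Agent.L7h67.WB.MvsA

set_option autoImplicit false

namespace Pool.Agent.L7h67.WB

open Finset MeasureTheory Polynomial Filter

/-- counting pairs by the second component -/
lemma card_pairs {α : Type} (B : Finset α) (X : Finset (α × α)) (hX : X ⊆ B ×ˢ B) (N : ℝ)
    (h : ∀ y ∈ B, ∀ X' : Finset α, (∀ x ∈ X', (x, y) ∈ X) → (#X' : ℝ) ≤ N) :
    (#X : ℝ) ≤ #B * N := by
  classical
  have h1 : #X = ∑ y ∈ B, #{p ∈ X | p.2 = y} := by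
    apply card_eq_sum_card_fiberwise
    intro p hp
    exact (mem_product.1 (hX hp)).2
  rw [h1]
  push_cast
  have h2 : ∀ y ∈ B, ((#{p ∈ X | p.2 = y} : ℕ) : ℝ) ≤ N := by
    intro y hy
    have h3 : #{p ∈ X | p.2 = y} = #(({p ∈ X | p.2 = y}).image Prod.fst) := by
      rw [card_image_of_injOn]
      intro p hp q hq hpq
      rw [mem_coe, mem_filter] at hp hq
      exact Prod.ext hpq (hp.2.trans hq.2.symm)
    rw [h3]
    apply h y hy
    intro x hx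
    rw [mem_image] at hx
    obtain ⟨p, hp, rfl⟩ := hx
    rw [mem_filter] at hp
    have : (p.1, y) = p := by rw [← hp.2]
    rw [this]
    exact hp.1
  refine (sum_le_sum h2).trans ?_
  rw [sum_const, nsmul_eq_mul]

lemma vz_cmp (k : ℕ) (P C T : ℝ) (hP : 1 ≤ P) (hC : 1 ≤ C) (hT : 0 ≤ T) :
    T * min 1 (T / (2 * C * P ^ (k - 2))) ≤ vz k P (4 * T) ∧
    vz k P (4 * T) ≤ 32 * C * (T * min 1 (T / (2 * C * P ^ (k - 2)))) := by
  unfold vz
  have hPk : 0 < P ^ (k - 2) := by positivity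
  obtain ⟨q, hq⟩ : ∃ q : ℝ, q = T / P ^ (k - 2) := ⟨_, rfl⟩
  have hq0 : 0 ≤ q := by rw [hq]; positivity
  have e1 : T / (2 * C * P ^ (k - 2)) = q / (2 * C) := by
    rw [hq]; field_simp
  have e2 : 4 * T / P ^ (k - 2) = 4 * q := by rw [hq]; ring
  rw [e1, e2]
  have h1 : q / (2 * C) ≤ 4 * q := by
    rw [div_le_iff₀ (by linarith)]
    nlinarith
  constructor
  · have h2 : min 1 (q / (2 * C)) ≤ min 1 (4 * q) := min_le_min le_rfl h1
    have h3 : 0 ≤ min 1 (4 * q) := le_min zero_le_one (by linarith)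
    nlinarith
  · have h2 : min 1 (4 * q) ≤ 8 * C * min 1 (q / (2 * C)) := by
      rcases le_total 1 (q / (2 * C)) with h | h
      · rw [min_eq_left h]
        have := min_le_left 1 (4 * q)
        linarith
      · rw [min_eq_right h]
        have h3 : 8 * C * (q / (2 * C)) = 4 * q := by field_simp; ring
        rw [h3]
        exact min_le_right _ _
    calc 4 * T * min 1 (4 * q) ≤ 4 * T * (8 * C * min 1 (q / (2 * C))) :=
          mul_le_mul_of_nonneg_left h2 (by linarith)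
      _ = 32 * C * (T * min 1 (q / (2 * C))) := by ring

theorem nb (hCt : S_COUNT) (hN : S_NUM) (k J : ℕ) (hk : 5 ≤ k)
    (hρ : (((k : ℝ) - 2) / ((k : ℝ) - 1)) ^ J ≤ 1 / 2 - 1 / ((k : ℝ) - 1))
    (Φ Φ1 Φ2 : ℝ → ℝ → ℝ) (hF : Fam k Φ Φ1 Φ2) (R : ℝ) :
    ∃ C K P₀ : ℝ, 1 ≤ C ∧ 1 ≤ K ∧ 1 ≤ P₀ ∧ ∀ P : ℝ, P₀ ≤ P →
    (∀ θ, |θ| ≤ R + 2 → ∀ x ∈ blk k J P, |gb (Φ2 θ) x| ≤ C * P ^ (k - 2) ∧
      |gb (Φ1 θ) x| ≤ C * P ^ (k - 1)) ∧
    ∀ L : ℝ, 1 ≤ L → ∀ θ, |θ| ≤ R + 2 → ∀ T : ℝ, Real.sqrt (2 * C * P ^ (k - 2)) ≤ T →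
      T ≤ 2 * (2 * C * P ^ (k - 1)) → ∀ X : Finset ((Fin J → ℕ × ℕ) × (Fin J → ℕ × ℕ)),
      X ⊆ blk k J P ×ˢ blk k J P →
      (∀ p ∈ X, |gb (Φ θ) p.1 - gb (Φ θ) p.2| ≤ 8 * L * (T * min 1 (T / (2 * C * P ^ (k - 2)))) ∧
        |gb (Φ1 θ) p.1 - gb (Φ1 θ) p.2| ≤ 4 * T) →
      (#X : ℝ) ≤ (#(blk k J P) : ℝ) ^ 2 * (K * (L ^ 2) ^ (2 * J)) / P ^ k *
        (T * min 1 (T / (2 * C * P ^ (k - 2)))) := by
  obtain ⟨K0, Q0, hK0, hQ0, hcount⟩ := hCt k Φ Φ1 Φ2 hF (by omega) (R + 2) 1 J le_rfl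
  obtain ⟨c, CF, Q1, γ, hc, hCF, hQ1, hfam⟩ := hF.2.2 (R + 2)
  obtain ⟨P₁, hP₁⟩ := eventually_atTop.1 ((qs_tendsto k hk J).eventually
    (eventually_ge_atTop (max Q0 Q1)))
  obtain ⟨C, hCdef⟩ : ∃ C : ℝ, C = 2 * J * CF + 1 := ⟨_, rfl⟩
  have hC1 : 1 ≤ C := by rw [hCdef]; have : 0 ≤ 2 * (J : ℝ) * CF := by positivity
                         linarith
  obtain ⟨κ, hκ⟩ : ∃ κ : ℝ, κ = 16 * C := ⟨_, rfl⟩
  have hκ1 : 16 ≤ κ := by rw [hκ]; linarith
  have h4κ : 1 ≤ 4 * κ ^ 2 := by nlinarith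
  refine ⟨C, K0 * (4 * κ ^ 2) ^ (2 * J) * (32 * C), max 1 P₁, hC1, ?_, le_max_left _ _, ?_⟩
  · have h1 : 1 ≤ (4 * κ ^ 2) ^ (2 * J) := one_le_pow₀ h4κ
    have h2 : 1 ≤ K0 * (4 * κ ^ 2) ^ (2 * J) := by nlinarith
    nlinarith
  intro P hP
  have hP1 : 1 ≤ P := (le_max_left _ _).trans hP
  have hP0 : 0 < P := by linarith
  have hQJ := hP₁ P ((le_max_right _ _).trans hP)
  have hQi : ∀ i, i < J → max Q0 Q1 ≤ qs k P i := fun i hi => hQJ.trans (qs_lower k hk P hP1 J i hi.le)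
  have hmem := blk_mem k hk J P hP1
  constructor
  · intro θ hθ x hx
    have h1 : ∀ i : Fin J, ∀ u : ℝ, qs k P i ≤ u → u ≤ 32 * qs k P i →
        |Φ2 θ u| ≤ CF * P ^ (k - 2) ∧ |Φ1 θ u| ≤ CF * P ^ (k - 1) := by
      intro i u hu1 hu2
      have h2 := (hfam θ hθ (qs k P i) ((le_max_right _ _).trans (hQi i i.isLt))).1 u hu1 hu2
      have h3 := qs_le k hk P hP1 i
      have h4 : 0 ≤ qs k P i := by linarith [qs_ge_one k hk P hP1 i]
      refine ⟨h2.2.2.trans ?_, h2.2.1.trans ?_⟩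
      · exact mul_le_mul_of_nonneg_left (pow_le_pow_left₀ h4 h3 _) (by linarith)
      · exact mul_le_mul_of_nonneg_left (pow_le_pow_left₀ h4 h3 _) (by linarith)
    have h5 : ∀ i : Fin J, 0 ≤ qs k P i := fun i => by linarith [qs_ge_one k hk P hP1 i]
    have hPk2 : 0 ≤ P ^ (k - 2) := by positivity
    have hPk1 : 0 ≤ P ^ (k - 1) := by positivity
    constructor
    · refine (gb_bound J (Φ2 θ) x (CF * P ^ (k - 2)) (fun i => ?_)).trans ?_
      · obtain ⟨a, b, c, d⟩ := hmem x hx i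
        have := h5 i
        exact ⟨(h1 i _ a (by linarith)).1, (h1 i _ (by linarith) d).1⟩
      · rw [hCdef]; nlinarith
    · refine (gb_bound J (Φ1 θ) x (CF * P ^ (k - 1)) (fun i => ?_)).trans ?_
      · obtain ⟨a, b, c, d⟩ := hmem x hx i
        have := h5 i
        exact ⟨(h1 i _ a (by linarith)).2, (h1 i _ (by linarith) d).2⟩
      · rw [hCdef]; nlinarith
  · intro L hL θ hθ T hT1 hT2 X hX hXc
    have hM1 : P ^ (k - 2) ≤ 2 * C * P ^ (k - 2) := by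
      have : 0 ≤ P ^ (k - 2) := by positivity
      nlinarith
    have hT0 : 0 < T := lt_of_lt_of_le (Real.sqrt_pos.2 (by positivity)) hT1
    obtain ⟨v, hv⟩ : ∃ v : ℝ, v = T * min 1 (T / (2 * C * P ^ (k - 2))) := ⟨_, rfl⟩
    have hv0 : 0 ≤ v := by
      rw [hv]
      exact mul_nonneg hT0.le (le_min zero_le_one (by positivity))
    obtain ⟨w1, w2⟩ := vz_cmp k P C T hP1 hC1 hT0.le
    rw [← hv] at w1 w2 hXc
    rw [← hv]
    -- the real inequality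
    have hnum := hN k J hk hρ P (κ * L) (4 * T) (8 * L * v) hP1 (by nlinarith) (by
        have h1 : P ^ (((k : ℝ) - 2) / 2) ≤ T := by
          refine le_trans ?_ hT1
          have h2 : P ^ (((k : ℝ) - 2) / 2) = Real.sqrt (P ^ (k - 2)) := by
            rw [Real.sqrt_eq_rpow, ← Real.rpow_natCast, ← Real.rpow_mul hP0.le]
            congr 1
            rw [Nat.cast_sub (by omega)]; push_cast; ring
          rw [h2]
          exact Real.sqrt_le_sqrt hM1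
        linarith) (by
        have h1 : 0 ≤ P ^ (k - 1) := by positivity
        rw [hκ]
        calc 4 * T ≤ 4 * (2 * (2 * C * P ^ (k - 1))) := by linarith
          _ = 16 * C * 1 * P ^ (k - 1) := by ring
          _ ≤ 16 * C * L * P ^ (k - 1) := by gcongr) (by positivity) (by
        have hvz : 0 ≤ vz k P (4 * T) := hv0.trans w1
        calc 8 * L * v ≤ 8 * L * vz k P (4 * T) := by gcongr
          _ ≤ κ * L * vz k P (4 * T) := by gcongr; linarith)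
    have hprod := blk_card k hk J P hP1
    have hcountX : ∀ y ∈ blk k J P, ∀ X' : Finset (Fin J → ℕ × ℕ), (∀ x ∈ X', (x, y) ∈ X) →
        (#X' : ℝ) ≤ K0 * ∏ i ∈ range J, step k (qs k P i) (8 * L * v) (4 * T) := by
      intro y hy X' hX'
      apply hcount θ hθ (fun i => qs k P i) (fun i hi => (le_max_left _ _).trans (hQi i hi))
        (fun i j hij _ => qs_cond k hk P hP1 i j hij) (8 * L * v) (4 * T) (gb (Φ θ) y) (gb (Φ1 θ) y)
        (by positivity) (by positivity)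
      · intro x hx i
        exact hmem x (mem_product.1 (hX (hX' x hx))).1 i
      · intro x hx
        exact hXc (x, y) (hX' x hx)
    have h1 := card_pairs (blk k J P) X hX _ hcountX
    refine h1.trans ?_
    obtain ⟨N, hNdef⟩ : ∃ N : ℝ, N = (#(blk k J P) : ℝ) := ⟨_, rfl⟩
    rw [← hNdef] at hprod ⊢
    have hN0 : 0 ≤ N := by rw [hNdef]; positivity
    have hPk : 0 < P ^ k := by positivity
    have e1 : (4 * (κ * L) ^ 2) ^ (2 * J) = (4 * κ ^ 2) ^ (2 * J) * (L ^ 2) ^ (2 * J) := by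
      rw [← mul_pow]; congr 1; ring
    rw [e1] at hnum
    have h2 : ∏ i ∈ range J, step k (qs k P i) (8 * L * v) (4 * T) ≤
        (4 * κ ^ 2) ^ (2 * J) * (L ^ 2) ^ (2 * J) * N * ((32 * C * v) / P ^ k) := by
      refine hnum.trans ?_
      have h3 : vz k P (4 * T) / P ^ k ≤ (32 * C * v) / P ^ k := div_le_div_of_nonneg_right w2 hPk.le
      have h4 : 0 ≤ vz k P (4 * T) / P ^ k := div_nonneg (hv0.trans w1) hPk.le
      gcongr
    calc N * (K0 * ∏ i ∈ range J, step k (qs k P i) (8 * L * v) (4 * T))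
        ≤ N * (K0 * ((4 * κ ^ 2) ^ (2 * J) * (L ^ 2) ^ (2 * J) * N * ((32 * C * v) / P ^ k))) := by gcongr
      _ = N ^ 2 * (K0 * (4 * κ ^ 2) ^ (2 * J) * (32 * C) * (L ^ 2) ^ (2 * J)) / P ^ k * v := by
        field_simp

end Pool.Agent.L7h67.WB
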