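import Mathlib
import Pool.Agent.L7h67.WB.MvsA
import Pool.Agent.L7h67.WA.Res2

set_option autoImplicit false

namespace Pool.Agent.L7h67.WB

open Finset MeasureTheory Polynomial Filter
open Pool.Agent.L7h67.WA (gs Dio S_DIO ev_half ev_nat_half floor_close floor_rho ae_affine comp_facts comp_eval)

/-- the conclusions for one function: `4J+1` summands for all large numbers, `2J+1` for almost all -/
def Concl (J : ℕ) (c : ℝ) (φ : ℝ → ℝ) : Prop :=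
  ∀ M : ℕ,
    (∀ᶠ n : ℕ in atTop, ∃ x : Fin (4 * J + 1) → ℕ, (∀ i, M ≤ x i) ∧ ∑ i, ⌊φ (x i : ℝ)⌋ = (n : ℤ)) ∧
    (∀ᶠ τ : ℝ in atTop, ∃ x : Fin (4 * J + 1) → ℕ, (∀ i, M ≤ x i) ∧
      |∑ i, φ (x i : ℝ) - τ| < τ ^ (-c)) ∧
    (∀ᶠ N : ℕ in atTop, ∀ Z : Finset ℕ, (∀ n ∈ Z, n ≤ N) →
      (∀ n ∈ Z, ¬ ∃ x : Fin (2 * J + 1) → ℕ, (∀ i, M ≤ x i) ∧ ∑ i, ⌊φ (x i : ℝ)⌋ = (n : ℤ)) →
      (#Z : ℝ) ≤ (N : ℝ) ^ (1 - c))

lemma eqvA (J : ℕ) : Nonempty (((Fin J × Bool) ⊕ (Fin J × Bool)) ⊕ Unit ≃ Fin (4 * J + 1)) :=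
  ⟨Fintype.equivOfCardEq (by simp; ring)⟩

lemma eqvB (J : ℕ) : Nonempty ((Fin J × Bool) ⊕ Unit ≃ Fin (2 * J + 1)) :=
  ⟨Fintype.equivOfCardEq (by simp; ring)⟩

/-- coordinates of a block -/
def cd {J : ℕ} (x : Fin J → ℕ × ℕ) (p : Fin J × Bool) : ℕ := if p.2 then (x p.1).1 else (x p.1).2

lemma cd_sum {R : Type*} [AddCommMonoid R] {J : ℕ} (x : Fin J → ℕ × ℕ) (f : ℕ → R) :
    ∑ p, f (cd x p) = ∑ i, (f (x i).1 + f (x i).2) := by
  rw [Fintype.sum_prod_type]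
  apply sum_congr rfl
  intro i _
  simp [cd]

def gluA {J : ℕ} (e : ((Fin J × Bool) ⊕ (Fin J × Bool)) ⊕ Unit ≃ Fin (4 * J + 1))
    (x y : Fin J → ℕ × ℕ) (z : ℕ) : Fin (4 * J + 1) → ℕ :=
  fun i => Sum.elim (Sum.elim (cd x) (cd y)) (fun _ => z) (e.symm i)

def gluB {J : ℕ} (e : (Fin J × Bool) ⊕ Unit ≃ Fin (2 * J + 1))
    (x : Fin J → ℕ × ℕ) (z : ℕ) : Fin (2 * J + 1) → ℕ :=
  fun i => Sum.elim (cd x) (fun _ => z) (e.symm i)

lemma gluA_sum {R : Type*} [AddCommMonoid R] {J : ℕ}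
    (e : ((Fin J × Bool) ⊕ (Fin J × Bool)) ⊕ Unit ≃ Fin (4 * J + 1))
    (x y : Fin J → ℕ × ℕ) (z : ℕ) (f : ℕ → R) :
    ∑ i, f (gluA e x y z i) = ∑ i, (f (x i).1 + f (x i).2) + ∑ i, (f (y i).1 + f (y i).2) + f z := by
  rw [← e.sum_comp]
  simp only [gluA, Equiv.symm_apply_apply, Fintype.sum_sum_type, Sum.elim_inl, Sum.elim_inr]
  rw [cd_sum, cd_sum]
  simp

lemma gluB_sum {R : Type*} [AddCommMonoid R] {J : ℕ}
    (e : (Fin J × Bool) ⊕ Unit ≃ Fin (2 * J + 1))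
    (x : Fin J → ℕ × ℕ) (z : ℕ) (f : ℕ → R) :
    ∑ i, f (gluB e x z i) = ∑ i, (f (x i).1 + f (x i).2) + f z := by
  rw [← e.sum_comp]
  simp only [gluB, Equiv.symm_apply_apply, Fintype.sum_sum_type, Sum.elim_inl, Sum.elim_inr]
  rw [cd_sum]
  simp

lemma gluA_ge {J : ℕ} (e : ((Fin J × Bool) ⊕ (Fin J × Bool)) ⊕ Unit ≃ Fin (4 * J + 1))
    (x y : Fin J → ℕ × ℕ) (z M : ℕ) (hx : ∀ i, M ≤ (x i).1 ∧ M ≤ (x i).2)
    (hy : ∀ i, M ≤ (y i).1 ∧ M ≤ (y i).2) (hz : M ≤ z) (i) : M ≤ gluA e x y z i := by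
  unfold gluA
  rcases e.symm i with (⟨j, b⟩ | ⟨j, b⟩) | j
  · show M ≤ cd x (j, b)
    unfold cd
    cases b
    · exact (hx j).2
    · exact (hx j).1
  · show M ≤ cd y (j, b)
    unfold cd
    cases b
    · exact (hy j).2
    · exact (hy j).1
  · exact hz

lemma gluB_ge {J : ℕ} (e : (Fin J × Bool) ⊕ Unit ≃ Fin (2 * J + 1))
    (x : Fin J → ℕ × ℕ) (z M : ℕ) (hx : ∀ i, M ≤ (x i).1 ∧ M ≤ (x i).2) (hz : M ≤ z) (i) :
    M ≤ gluB e x z i := by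
  unfold gluB
  rcases e.symm i with ⟨j, b⟩ | j
  · show M ≤ cd x (j, b)
    unfold cd
    cases b
    · exact (hx j).2
    · exact (hx j).1
  · exact hz

/-- the block is good -/
lemma good_of (hGMB : S_GMB) (k J : ℕ) (hk : 5 ≤ k) (Φ Φ1 Φ2 : ℝ → ℝ → ℝ) (hF : Fam k Φ Φ1 Φ2)
    (θ : ℝ) (hM : MVB k (Fin J → ℕ × ℕ) (fun l => blk k J ((2 : ℝ) ^ l)) (gb (Φ θ)))
    (ρ : ℝ → ℝ) (hρ : ∀ t, |ρ t - t| ≤ 1) :
    GoodBlk k (Fin J → ℕ × ℕ) (fun l => blk k J ((2 : ℝ) ^ l)) (gb (fun u => ρ (Φ θ u))) := by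
  have hpow : Tendsto (fun l : ℕ => (2 : ℝ) ^ l) atTop atTop :=
    tendsto_pow_atTop_atTop_of_one_lt (by norm_num)
  have hclose : ∀ x : Fin J → ℕ × ℕ, |gb (fun u => ρ (Φ θ u)) x - gb (Φ θ) x| ≤ 2 * J := by
    intro x
    unfold gb
    rw [← sum_sub_distrib]
    refine (abs_sum_le_sum_abs _ _).trans ?_
    have h1 : ∀ i ∈ (univ : Finset (Fin J)), |ρ (Φ θ (x i).1) + ρ (Φ θ (x i).2) -
        (Φ θ (x i).1 + Φ θ (x i).2)| ≤ 2 := by
      intro i _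
      have e1 : ρ (Φ θ (x i).1) + ρ (Φ θ (x i).2) - (Φ θ (x i).1 + Φ θ (x i).2) =
          (ρ (Φ θ (x i).1) - Φ θ (x i).1) + (ρ (Φ θ (x i).2) - Φ θ (x i).2) := by ring
      rw [e1]
      refine (abs_add_le _ _).trans ?_
      linarith [hρ (Φ θ (x i).1), hρ (Φ θ (x i).2)]
    refine (sum_le_sum h1).trans ?_
    rw [sum_const, card_univ, Fintype.card_fin, nsmul_eq_mul]
    exact le_of_eq (by ring)
  refine ⟨?_, ?_, ?_⟩
  · obtain ⟨c, C, Q0, γ, hc, hC, hQ0, hfam⟩ := hF.2.2 |θ|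
    refine ⟨2 * J * C + 2 * J, ?_⟩
    filter_upwards [hpow.eventually ((qs_tendsto k hk J).eventually (eventually_ge_atTop Q0)),
      hpow.eventually (eventually_ge_atTop 1)] with l h1 hP1 x hx
    obtain ⟨P, hP⟩ : ∃ P : ℝ, P = (2 : ℝ) ^ l := ⟨_, rfl⟩
    rw [← hP] at h1 hP1 hx ⊢
    have h2 : |gb (Φ θ) x| ≤ 2 * J * (C * P ^ k) := by
      apply gb_bound
      intro i
      have h3 := h1.trans (qs_lower k hk P hP1 J i i.isLt.le)
      have h4 := hfam θ le_rfl (qs k P i) h3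
      obtain ⟨a, b, c', d⟩ := blk_mem k hk J P hP1 x hx i
      have h5 := qs_ge_one k hk P hP1 i
      have h6 := qs_le k hk P hP1 i
      have h7 : C * qs k P i ^ k ≤ C * P ^ k :=
        mul_le_mul_of_nonneg_left (pow_le_pow_left₀ (by linarith) h6 k) (by linarith)
      exact ⟨((h4.1 _ a (by linarith)).1).trans h7, ((h4.1 _ (by linarith) d).1).trans h7⟩
    have h8 := hclose x
    have h9 : |gb (fun u => ρ (Φ θ u)) x| ≤ |gb (Φ θ) x| + 2 * J := by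
      have := abs_sub_abs_le_abs_sub (gb (fun u => ρ (Φ θ u)) x) (gb (Φ θ) x)
      linarith
    have h10 : (1 : ℝ) ≤ P ^ k := one_le_pow₀ hP1
    have h11 : (2 : ℝ) * J ≤ 2 * J * P ^ k := le_mul_of_one_le_right (by positivity) h10
    calc |gb (fun u => ρ (Φ θ u)) x| ≤ 2 * J * (C * P ^ k) + 2 * J := by linarith
      _ ≤ 2 * J * (C * P ^ k) + 2 * J * P ^ k := by linarith
      _ = (2 * J * C + 2 * J) * P ^ k := by ring
  · filter_upwards with l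
    have h1 : (1 : ℝ) ≤ (2 : ℝ) ^ l := one_le_pow₀ (by norm_num)
    have h2 := blk_card k hk J _ h1
    have h3 : 0 < ∏ i ∈ range J, qs k ((2 : ℝ) ^ l) i ^ 2 := by
      apply prod_pos
      intro i _
      have := qs_ge_one k hk _ h1 i
      positivity
    have h4 : (0 : ℝ) < #(blk k J ((2 : ℝ) ^ l)) := lt_of_lt_of_le h3 h2
    exact card_pos.1 (by exact_mod_cast h4)
  · exact hGMB k (Fin J → ℕ × ℕ) (fun l => blk k J ((2 : ℝ) ^ l)) (gb (Φ θ)) _ (2 * J) hclose hM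

theorem concl_of (hMVS : S_MVS) (hFINE : S_FINE) (hFINE2 : S_FINE2) (hGMB : S_GMB)
    (hNUMJ : S_NUMJ) : ∀ k : ℕ, 5 ≤ k → ∃ c : ℝ, 0 < c ∧ ∀ J : ℕ, 7 * k + 23 ≤ 10 * J →
    ∀ (Φ Φ1 Φ2 : ℝ → ℝ → ℝ) (F : ℝ → ℝ[X]), Fam k Φ Φ1 Φ2 →
    (∀ θ, (F θ).natDegree = k ∧ 0 < (F θ).leadingCoeff ∧ ∀ x, (F θ).eval x = Φ θ x) →
    (∀ᵐ θ : ℝ, Dio ((F θ).coeff (k - 1) / (F θ).coeff k)) →
    ∀ᵐ θ : ℝ, Concl J c (Φ θ) := by
  intro k hk
  obtain ⟨c1, hc1, h1⟩ := hFINE k (by omega)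
  obtain ⟨c2, hc2, h2⟩ := hFINE2 k (by omega)
  refine ⟨min c1 c2, lt_min hc1 hc2, ?_⟩
  intro J hJ Φ Φ1 Φ2 F hF hFF hdio
  filter_upwards [hMVS k J hk (hNUMJ k J hk hJ) Φ Φ1 Φ2 hF, hdio] with θ hMV hD M
  obtain ⟨hd, hl, hev⟩ := hFF θ
  obtain ⟨e⟩ := eqvA J
  obtain ⟨e'⟩ := eqvB J
  have hpow : Tendsto (fun l : ℕ => (2 : ℝ) ^ l) atTop atTop :=
    tendsto_pow_atTop_atTop_of_one_lt (by norm_num)
  -- all coordinates are large
  obtain ⟨M', hM', hMM'⟩ : ∃ M' : ℕ, M ≤ M' ∧ ∀ l, M' ≤ l → ∀ x ∈ blk k J ((2 : ℝ) ^ l), ∀ i,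
      M ≤ (x i).1 ∧ M ≤ (x i).2 := by
    obtain ⟨l₀, hl₀⟩ := eventually_atTop.1
      (hpow.eventually ((qs_tendsto k hk J).eventually (eventually_ge_atTop (M : ℝ))))
    refine ⟨max M l₀, le_max_left _ _, fun l hl x hx i => ?_⟩
    have h3 := hl₀ l ((le_max_right _ _).trans hl)
    have hP1 : (1 : ℝ) ≤ (2 : ℝ) ^ l := one_le_pow₀ (by norm_num)
    have h4 := qs_lower k hk _ hP1 J i i.isLt.le
    obtain ⟨a, b, c', d⟩ := blk_mem k hk J _ hP1 x hx i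
    have h5 := qs_ge_one k hk _ hP1 i
    constructor
    · exact_mod_cast h3.trans (h4.trans a)
    · have : (M : ℝ) ≤ ((x i).2 : ℝ) := by linarith
      exact_mod_cast this
  refine ⟨?_, ?_, ?_⟩
  · have hg := good_of hGMB k J hk Φ Φ1 Φ2 hF θ hMV (fun t => ((⌊t⌋ : ℤ) : ℝ)) floor_rho
    have h3 := h1 _ _ _ _ _ _ (F θ) hg hg hd hl hD M'
    have h4 := ev_nat_half.eventually (h3.and (ev_half c1 hc1))
    filter_upwards [h4] with n hn
    obtain ⟨⟨l, hl', x, hx, y, hy, z, hz, hxyz⟩, hhalf⟩ := hn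
    refine ⟨gluA e x y z, gluA_ge e x y z M (hMM' l hl' x hx) (hMM' l hl' y hy) (hM'.trans hz), ?_⟩
    rw [gluA_sum e x y z (fun u => ⌊Φ θ (u : ℝ)⌋)]
    apply floor_close
    rw [hev] at hxyz
    unfold gb at hxyz
    push_cast
    exact hxyz.trans hhalf
  · have hg := good_of hGMB k J hk Φ Φ1 Φ2 hF θ hMV (fun t => t)
      (fun t => by rw [sub_self, abs_zero]; exact zero_le_one)
    have h3 := h1 _ _ _ _ _ _ (F θ) hg hg hd hl hD M'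
    filter_upwards [h3, eventually_ge_atTop 1] with τ hτ hτ1
    obtain ⟨l, hl', x, hx, y, hy, z, hz, hxyz⟩ := hτ
    refine ⟨gluA e x y z, gluA_ge e x y z M (hMM' l hl' x hx) (hMM' l hl' y hy) (hM'.trans hz), ?_⟩
    rw [gluA_sum e x y z (fun u => Φ θ (u : ℝ))]
    rw [hev] at hxyz
    unfold gb at hxyz
    refine hxyz.trans_le (Real.rpow_le_rpow_of_exponent_le hτ1 ?_)
    have := min_le_left c1 c2
    linarith
  · have hg := good_of hGMB k J hk Φ Φ1 Φ2 hF θ hMV (fun t => ((⌊t⌋ : ℤ) : ℝ)) floor_rho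
    have h3 := h2 _ _ _ (F θ) hg hd hl hD M' (1 / 2)
    have h4 := tendsto_natCast_atTop_atTop.eventually (ev_half c2 hc2)
    filter_upwards [h3, h4, eventually_ge_atTop 1] with N hN hhalf hN1 Z hZ hZn
    refine (hN Z hZ ?_).trans ?_
    · intro n hn l hl' x hx z hz
      by_contra hcon
      push Not at hcon
      apply hZn n hn
      refine ⟨gluB e' x z, gluB_ge e' x z M (hMM' l hl' x hx) (hM'.trans hz), ?_⟩
      rw [gluB_sum e' x z (fun u => ⌊Φ θ (u : ℝ)⌋)]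
      apply floor_close
      rw [hev] at hcon
      unfold gb at hcon
      push_cast
      exact hcon.trans hhalf
    · apply Real.rpow_le_rpow_of_exponent_le (by exact_mod_cast hN1)
      have := min_le_right c1 c2
      linarith

/-- shifts -/
theorem shift_of (hMVS : S_MVS) (hFINE : S_FINE) (hFINE2 : S_FINE2) (hGMB : S_GMB)
    (hNUMJ : S_NUMJ) (hFAMS : S_FAMS) (hFAML : S_FAML) (hdio : S_DIO) :
    ∀ k : ℕ, 5 ≤ k → ∃ c : ℝ, 0 < c ∧ ∀ J : ℕ, 7 * k + 23 ≤ 10 * J →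
    ∀ g : ℝ[X], g.natDegree = k → 0 < g.leadingCoeff →
    (∀ᵐ θ : ℝ, Concl J c (fun x => g.eval (x - θ))) ∧
    (∀ᵐ θ : ℝ, Concl J c (fun x => g.eval x + θ * x ^ (k - 1))) := by
  intro k hk
  obtain ⟨c, hc, h⟩ := concl_of hMVS hFINE hFINE2 hGMB hNUMJ k hk
  refine ⟨c, hc, fun J hJ g hg hl => ⟨?_, ?_⟩⟩
  · apply h J hJ _ _ _ (fun θ => g.comp (X - C θ)) (hFAMS k g (by omega) hg hl)
    · intro θ
      have h1 := comp_facts g k (by omega) hg hl θ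
      exact ⟨h1.1, h1.2.1, fun x => comp_eval g θ x⟩
    · have h2 := ae_affine Dio hdio (g.coeff (k - 1) / g.coeff k) (-k)
        (neg_ne_zero.2 (Nat.cast_ne_zero.2 (by omega)))
      filter_upwards [h2] with θ hθ
      rw [(comp_facts g k (by omega) hg hl θ).2.2]
      exact hθ
  · have hgk : g.coeff k = g.leadingCoeff := by rw [leadingCoeff, hg]
    have hdeg : (C (1 : ℝ) * X ^ (k - 1) : ℝ[X]).natDegree < g.natDegree := by
      rw [hg]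
      refine (natDegree_C_mul_X_pow_le _ _).trans_lt ?_
      omega
    have hcoef : ∀ θ : ℝ, (g + C θ * X ^ (k - 1)).coeff k = g.coeff k := by
      intro θ
      rw [coeff_add, coeff_C_mul_X_pow, if_neg (by omega), add_zero]
    have hnd : ∀ θ : ℝ, (g + C θ * X ^ (k - 1)).natDegree = k := by
      intro θ
      apply natDegree_eq_of_le_of_coeff_ne_zero
      · refine (natDegree_add_le _ _).trans (max_le hg.le ?_)
        refine (natDegree_C_mul_X_pow_le _ _).trans ?_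
        omega
      · rw [hcoef, hgk]; exact hl.ne'
    apply h J hJ _ _ _ (fun θ => g + C θ * X ^ (k - 1)) (hFAML k g (by omega) hg hl)
    · intro θ
      refine ⟨hnd θ, ?_, ?_⟩
      · rw [leadingCoeff, hnd, hcoef, hgk]; exact hl
      · intro x
        simp
    · have h2 := ae_affine Dio hdio (g.coeff (k - 1) / g.coeff k) (1 / g.coeff k)
        (by rw [hgk]; exact one_div_ne_zero hl.ne')
      filter_upwards [h2] with θ hθ
      have h3 : (g + C θ * X ^ (k - 1)).coeff (k - 1) = g.coeff (k - 1) + θ := by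
        rw [coeff_add, coeff_C_mul_X_pow, if_pos rfl]
      rw [h3, hcoef, add_div]
      have h4 : θ / g.coeff k = 1 / g.coeff k * θ := by ring
      rw [h4]
      exact hθ

end Pool.Agent.L7h67.WB
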