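import Mathlib
import Pool.Agent.L7h67.WB.Stm
import Pool.Agent.L7h67.WA.FinA

set_option autoImplicit false

namespace Pool.Agent.L7h67.WB

open Finset MeasureTheory Polynomial Filter
open Pool.Agent.L7h67.WA (gs WS WI GI GS Dio ev_small ev_exp catch_seq GS_small exps s_SUP)

/-- one block, one value of `a0` -/
lemma fine_block (hGIL : S_GIL) (k : ℕ) (hk : 2 ≤ k) (σ : ℝ) (hσ0 : 0 < σ) (hσ4 : σ ≤ 1 / 4)
    (α β : Type) (XA : ℕ → Finset α) (XB : ℕ → Finset β) (GA : α → ℝ) (GB : β → ℝ) (F0 : ℝ[X])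
    (hA : GoodBlk k α XA GA) (hB : GoodBlk k β XB GB) (hF0 : F0.natDegree = k)
    (hl0 : 0 < F0.leadingCoeff) (a0 : ℕ) (ha0 : 1 ≤ a0)
    (hSup : ∀ᶠ P : ℕ in atTop, ∀ β : ℝ, |β| ≤ (P : ℝ) ^ σ →
      ‖WS F0 a0 P β - WI F0 a0 P β‖ ≤ (P : ℝ) ^ (1 - σ)) (M : ℕ) :
    ∀ᶠ l : ℕ in atTop, ∀ τ : ℝ, 1 ≤ τ → τ ≤ ((2 : ℝ) ^ l) ^ (k + 1) →
      (∀ x ∈ XA l, ∀ y ∈ XB l, F0.eval (3 / 2 * ((a0 : ℝ) * (2 : ℝ) ^ l)) ≤ τ - GA x - GB y ∧
        τ - GA x - GB y ≤ F0.eval (3 * ((a0 : ℝ) * (2 : ℝ) ^ l))) →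
      ∃ x ∈ XA l, ∃ y ∈ XB l, ∃ z : ℕ, M ≤ z ∧
        |GA x + GB y + F0.eval (z : ℝ) - τ| < τ ^ (-(σ / (16 * k))) := by
  obtain ⟨c, hc, hG⟩ := hGIL k F0 a0 (by omega) hF0 hl0 ha0
  have hpow : Tendsto (fun l : ℕ => (2 : ℕ) ^ l) atTop atTop :=
    tendsto_pow_atTop_atTop_of_one_lt (by norm_num)
  have E1 := hpow.eventually (eventually_ge_atTop (M + 1))
  have E2 := hpow.eventually hG
  have E3 := hpow.eventually hSup
  have E4 := hA.2.2 (σ / 4) (by linarith)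
  have E5 := hB.2.2 (σ / 4) (by linarith)
  have E6 := hA.2.1
  have E6' := hB.2.1
  have E7 := hpow.eventually (ev_small 1 (c / 3) (σ / 2) (by linarith) (by linarith))
  have E8 := hpow.eventually (ev_exp (15 * a0) (c / 3) (k + σ / 4) (σ / 4) (by linarith) (by linarith))
  filter_upwards [E1, E2, E3, E4, E5, E6, E6', E7, E8] with l e1 e2 e3 e4 e5 e6 e6' e7 e8 τ hτ1' hτP hrange
  by_contra hcon
  push Not at hcon
  obtain ⟨P, hP⟩ : ∃ P : ℕ, P = 2 ^ l := ⟨_, rfl⟩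
  have hcastP : (2 : ℝ) ^ l = (P : ℝ) := by rw [hP]; push_cast; ring
  rw [hcastP] at e4 e5 hτP
  simp only [hcastP] at hrange
  rw [← hP] at e1 e2 e3 e7 e8
  have hPM : M ≤ P := by omega
  have hP1 : (1 : ℝ) ≤ P := by exact_mod_cast (by omega : 1 ≤ P)
  have hP0 : (0 : ℝ) < P := by linarith
  obtain ⟨w, hw⟩ : ∃ w : ℝ, w = (P : ℝ) ^ (-(σ / 4)) := ⟨_, rfl⟩
  have hw0 : 0 < w := by rw [hw]; positivity
  have hw1 : w ≤ 1 := by rw [hw]; exact Real.rpow_le_one_of_one_le_of_nonpos hP1 (by linarith)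
  obtain ⟨δ, hδ⟩ : ∃ δ : ℝ, δ = τ ^ (-(σ / (16 * k))) := ⟨_, rfl⟩
  have hδ0 : 0 ≤ δ := by rw [hδ]; positivity
  obtain ⟨x1, x2⟩ := exps P w ((P : ℝ) ^ σ) δ σ τ k hk hP1 hσ0 hw rfl hτ1' hτP hδ
  obtain ⟨E, hE⟩ : ∃ E : ℝ, E = Real.exp (-(Real.pi / 2) * (P : ℝ) ^ (σ / 4)) := ⟨_, rfl⟩
  have hE0 : 0 < E := by rw [hE]; exact Real.exp_pos _
  rw [← hE] at x1 x2 e8
  obtain ⟨NA, hNA⟩ : ∃ NA : ℝ, NA = (#(XA l) : ℝ) := ⟨_, rfl⟩
  obtain ⟨NB, hNB⟩ : ∃ NB : ℝ, NB = (#(XB l) : ℝ) := ⟨_, rfl⟩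
  have hNA0 : 0 < NA := by rw [hNA]; exact_mod_cast e6.card_pos
  have hNB0 : 0 < NB := by rw [hNB]; exact_mod_cast e6'.card_pos
  rw [← hNA] at e4
  rw [← hNB] at e5
  -- the core estimate
  have hcore := Pool.Agent.L7h37.WA.s_CORE α β (XA l) (XB l) GA GB
    F0 a0 P w ((P : ℝ) ^ σ) ((P : ℝ) ^ (1 - σ)) (NA ^ 2 * (P : ℝ) ^ (-(k : ℝ) + σ / 4))
    (NB ^ 2 * (P : ℝ) ^ (-(k : ℝ) + σ / 4)) τ hw0 hw1 (by positivity) (by positivity) e3 e4 e5
  rw [← hNA, ← hNB] at hcore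
  have hsq : Real.sqrt (NA ^ 2 * (P : ℝ) ^ (-(k : ℝ) + σ / 4) * (NB ^ 2 * (P : ℝ) ^ (-(k : ℝ) + σ / 4))) =
      NA * NB * (P : ℝ) ^ (-(k : ℝ) + σ / 4) := by
    rw [show NA ^ 2 * (P : ℝ) ^ (-(k : ℝ) + σ / 4) * (NB ^ 2 * (P : ℝ) ^ (-(k : ℝ) + σ / 4)) =
      (NA * NB * (P : ℝ) ^ (-(k : ℝ) + σ / 4)) ^ 2 by ring]
    exact Real.sqrt_sq (by positivity)
  rw [hsq] at hcore
  have hmain : NA * NB * (c * w / (P : ℝ) ^ (k - 1)) ≤
      ∑ x ∈ XA l, ∑ y ∈ XB l, GI F0 a0 P w (τ - GA x - GB y) := by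
    have h1 : ∀ x ∈ XA l, NB * (c * w / (P : ℝ) ^ (k - 1)) ≤
        ∑ y ∈ XB l, GI F0 a0 P w (τ - GA x - GB y) := by
      intro x hx
      have h2 : ∀ y ∈ XB l, c * w / (P : ℝ) ^ (k - 1) ≤ GI F0 a0 P w (τ - GA x - GB y) :=
        fun y hy => e2 w hw0 hw1 _ (hrange x hx y hy).1 (hrange x hx y hy).2
      have h3 := sum_le_sum h2
      rw [sum_const, nsmul_eq_mul, ← hNB] at h3
      exact h3
    have h4 := sum_le_sum h1
    rw [sum_const, nsmul_eq_mul, ← hNA, ← mul_assoc] at h4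
    exact h4
  have hGS : ∑ x ∈ XA l, ∑ y ∈ XB l, GS F0 a0 P w (τ - GA x - GB y) ≤
      NA * NB * (3 * (a0 * P) * E) := by
    have h1 : ∀ x ∈ XA l, ∑ y ∈ XB l, GS F0 a0 P w (τ - GA x - GB y) ≤
        NB * (3 * (a0 * P) * E) := by
      intro x hx
      have h2 : ∀ y ∈ XB l, GS F0 a0 P w (τ - GA x - GB y) ≤ 3 * (a0 * P) * E := by
        intro y hy
        refine (GS_small F0 a0 P w _ δ hw0 hδ0 ?_).trans ?_
        · intro z hz
          rw [mem_Ioc] at hz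
          have hz2 : P ≤ z := by
            have : 1 * P ≤ a0 * P := Nat.mul_le_mul_right P ha0
            omega
          have h3 := hcon x hx y hy z (hPM.trans hz2)
          rw [hδ]
          refine h3.trans (le_of_eq ?_)
          congr 1; ring
        · exact mul_le_mul_of_nonneg_left x2 (by positivity)
      refine (sum_le_sum h2).trans ?_
      rw [sum_const, nsmul_eq_mul, hNB]
    refine (sum_le_sum h1).trans ?_
    rw [sum_const, nsmul_eq_mul, ← hNA]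
    exact le_of_eq (by ring)
  simp only [sum_sub_distrib] at hcore
  have hab := (abs_le.1 hcore).1
  have h10 : 12 * (NA * NB * (a0 * P)) *
      Real.exp (-(Real.pi * w ^ 2 * ((P : ℝ) ^ σ) ^ 2 / 2)) ≤
      12 * (NA * NB * (a0 * P)) * E :=
    mul_le_mul_of_nonneg_left x1 (by positivity)
  have h11 : NA * NB * (c * w / (P : ℝ) ^ (k - 1)) ≤
      (P : ℝ) ^ (1 - σ) * (NA * NB * (P : ℝ) ^ (-(k : ℝ) + σ / 4)) +
      15 * (NA * NB * (a0 * P)) * E := by linarith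
  have hNN : 0 < NA * NB := by positivity
  have h12 : c * w / (P : ℝ) ^ (k - 1) ≤
      (P : ℝ) ^ (1 - σ) * (P : ℝ) ^ (-(k : ℝ) + σ / 4) + 15 * (a0 * P) * E := by
    have h13 : NA * NB * (c * w / (P : ℝ) ^ (k - 1)) ≤
        NA * NB * ((P : ℝ) ^ (1 - σ) * (P : ℝ) ^ (-(k : ℝ) + σ / 4) + 15 * (a0 * P) * E) := by
      refine h11.trans (le_of_eq (by ring))
    exact le_of_mul_le_mul_left h13 hNN
  -- normalize
  obtain ⟨Z, hZ⟩ : ∃ Z : ℝ, Z = (P : ℝ) ^ (1 - (k : ℝ) - σ / 4) := ⟨_, rfl⟩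
  have hZ0 : 0 < Z := by rw [hZ]; positivity
  have z1 : w / (P : ℝ) ^ (k - 1) = Z := by
    rw [hw, hZ, ← Real.rpow_natCast, ← Real.rpow_sub hP0]
    congr 1
    rw [Nat.cast_sub (by omega)]; push_cast; ring
  have z2 : (P : ℝ) ^ (1 - σ) * (P : ℝ) ^ (-(k : ℝ) + σ / 4) = Z * (P : ℝ) ^ (-(σ / 2)) := by
    rw [hZ, ← Real.rpow_add hP0, ← Real.rpow_add hP0]; congr 1; ring
  have z3 : (P : ℝ) = Z * (P : ℝ) ^ ((k : ℝ) + σ / 4) := by
    rw [hZ, ← Real.rpow_add hP0]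
    have : 1 - (k : ℝ) - σ / 4 + ((k : ℝ) + σ / 4) = 1 := by ring
    rw [this, Real.rpow_one]
  have h14 : c * Z ≤ Z * (P : ℝ) ^ (-(σ / 2)) +
      Z * (15 * a0 * ((P : ℝ) ^ ((k : ℝ) + σ / 4) * E)) := by
    calc c * Z = c * w / (P : ℝ) ^ (k - 1) := by rw [← z1]; ring
      _ ≤ _ := h12
      _ = Z * (P : ℝ) ^ (-(σ / 2)) + 15 * (a0 * P) * E := by rw [z2]
      _ = Z * (P : ℝ) ^ (-(σ / 2)) + 15 * (a0 * (Z * (P : ℝ) ^ ((k : ℝ) + σ / 4))) * E := by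
        rw [← z3]
      _ = _ := by ring
  rw [one_mul] at e7
  nlinarith

/-- values of a polynomial along multiples of `P` -/
lemma lim_ratio (k : ℕ) (F0 : ℝ[X]) (hF0 : F0.natDegree = k)
    (hl0 : 0 < F0.leadingCoeff) (s : ℝ) (hs : 0 < s) :
    Tendsto (fun P : ℕ => F0.eval (s * (P : ℝ)) / (P : ℝ) ^ k) atTop (nhds (F0.leadingCoeff * s ^ k)) := by
  have hne : F0 ≠ 0 := by rintro rfl; simp at hl0
  have h1 : Tendsto (fun x : ℝ => F0.eval x / (X ^ k : ℝ[X]).eval x) atTop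
      (nhds (F0.leadingCoeff / (X ^ k : ℝ[X]).leadingCoeff)) := by
    apply Polynomial.div_tendsto_leadingCoeff_div_of_degree_eq
    rw [degree_X_pow, degree_eq_natDegree hne, hF0]
  rw [leadingCoeff_X_pow, div_one] at h1
  have h2 : Tendsto (fun P : ℕ => s * (P : ℝ)) atTop atTop :=
    Tendsto.const_mul_atTop hs tendsto_natCast_atTop_atTop
  have h3 := ((h1.comp h2).mul_const (s ^ k))
  refine h3.congr' ?_
  filter_upwards [eventually_ge_atTop 1] with P hP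
  have hP0 : (0 : ℝ) < P := by exact_mod_cast hP
  simp only [Function.comp, eval_pow, eval_X]
  rw [mul_pow]
  field_simp

/-- gaps between values of a polynomial at multiples of `P` -/
lemma ev_gap (k : ℕ) (hk : 1 ≤ k) (F0 : ℝ[X]) (hF0 : F0.natDegree = k)
    (hl0 : 0 < F0.leadingCoeff) (A C s s' : ℝ) (hs : 1 ≤ s) (hss : s + 1 / 2 ≤ s')
    (hA1 : 1 ≤ A) (hA : 2 * C < F0.leadingCoeff * A) :
    ∀ᶠ P : ℕ in atTop, F0.eval (s * (A * (P : ℝ))) + C * (P : ℝ) ^ k ≤ F0.eval (s' * (A * (P : ℝ))) := by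
  have h1 := lim_ratio k F0 hF0 hl0 (s * A) (by positivity)
  have h2 := lim_ratio k F0 hF0 hl0 (s' * A) (by nlinarith)
  have h3 := h2.sub h1
  have h4 : C < F0.leadingCoeff * (s' * A) ^ k - F0.leadingCoeff * (s * A) ^ k := by
    rw [mul_pow, mul_pow]
    have h5 : s ^ k + 1 / 2 ≤ s' ^ k := by
      obtain ⟨j, rfl⟩ : ∃ j, k = j + 1 := ⟨k - 1, by omega⟩
      have h6 : s ^ j ≤ s' ^ j := pow_le_pow_left₀ (by linarith) (by linarith) j
      have h7 : 1 ≤ s' ^ j := one_le_pow₀ (by linarith)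
      have h8 : 0 ≤ s ^ j := by positivity
      rw [pow_succ, pow_succ]
      nlinarith
    have h6 : A ≤ A ^ k := le_self_pow₀ hA1 (by omega)
    have h7 : F0.leadingCoeff * A ≤ F0.leadingCoeff * A ^ k := mul_le_mul_of_nonneg_left h6 hl0.le
    have h8 : 0 < F0.leadingCoeff * A ^ k := by positivity
    have h9 : F0.leadingCoeff * A ^ k * (s ^ k + 1 / 2) ≤ F0.leadingCoeff * A ^ k * s' ^ k :=
      mul_le_mul_of_nonneg_left h5 h8.le
    have e1 : F0.leadingCoeff * (s' ^ k * A ^ k) - F0.leadingCoeff * (s ^ k * A ^ k) =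
      F0.leadingCoeff * A ^ k * s' ^ k - F0.leadingCoeff * A ^ k * s ^ k := by ring
    rw [e1]
    nlinarith
  have h10 := h3.eventually (lt_mem_nhds h4)
  filter_upwards [h10, eventually_ge_atTop 1] with P h11 hP
  have hP0 : (0 : ℝ) < (P : ℝ) ^ k := by
    have : (0 : ℝ) < P := by exact_mod_cast hP
    positivity
  rw [← sub_div, lt_div_iff₀ hP0] at h11
  rw [← mul_assoc, ← mul_assoc]
  linarith

theorem fine_of (hGIL : S_GIL) : S_FINE := by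
  intro k hk
  obtain ⟨σ, hσ0, hσ4, hSup⟩ := s_SUP k hk
  have hk0 : (0 : ℝ) < k := by exact_mod_cast (by omega : 0 < k)
  refine ⟨σ / (16 * k), by positivity, ?_⟩
  intro α β XA XB GA GB F0 hA hB hF0 hl0 hdio M
  obtain ⟨CA, hCA⟩ := hA.1
  obtain ⟨CB, hCB⟩ := hB.1
  obtain ⟨C, hC⟩ : ∃ C : ℝ, C = |CA| + |CB| := ⟨_, rfl⟩
  obtain ⟨A, hA2⟩ := exists_nat_gt (2 * C / F0.leadingCoeff + 1)
  have hC0 : 0 ≤ C := by rw [hC]; positivity
  have hA1 : (1 : ℝ) ≤ A := by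
    have : 0 ≤ 2 * C / F0.leadingCoeff := by positivity
    linarith
  have hA1' : 1 ≤ A := by exact_mod_cast hA1
  have hA3 : 2 * C < F0.leadingCoeff * A := by
    have h1 : 2 * C / F0.leadingCoeff < A := by linarith
    rw [div_lt_iff₀ hl0] at h1
    linarith
  have hpow : Tendsto (fun l : ℕ => (2 : ℕ) ^ l) atTop atTop :=
    tendsto_pow_atTop_atTop_of_one_lt (by norm_num)
  have G1 := hpow.eventually (ev_gap k (by omega) F0 hF0 hl0 A C 3 (7 / 2) (by norm_num) (by norm_num) hA1 hA3)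
  have G2 := hpow.eventually (ev_gap k (by omega) F0 hF0 hl0 A C (11 / 2) 6 (by norm_num) (by norm_num) hA1 hA3)
  have G3 := hpow.eventually (ev_gap k (by omega) F0 hF0 hl0 A C (9 / 2) 5 (by norm_num) (by norm_num) hA1 hA3)
  have G4 := hpow.eventually (ev_gap k (by omega) F0 hF0 hl0 A C 8 9 (by norm_num) (by norm_num) hA1 hA3)
  have G5 := hpow.eventually (ev_gap k (by omega) F0 hF0 hl0 A C 5 (11 / 2) (by norm_num) (by norm_num) hA1 hA3)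
  have G6 := hpow.eventually (ev_gap k (by omega) F0 hF0 hl0 A C 7 8 (by norm_num) (by norm_num) hA1 hA3)
  have B1 := fine_block hGIL k hk σ hσ0 hσ4 α β XA XB GA GB F0 hA hB hF0 hl0 (2 * A) (by omega)
    (hSup F0 hF0 hl0 hdio (2 * A) (by omega)) M
  have B2 := fine_block hGIL k hk σ hσ0 hσ4 α β XA XB GA GB F0 hA hB hF0 hl0 (3 * A) (by omega)
    (hSup F0 hF0 hl0 hdio (3 * A) (by omega)) M
  have hH := Pool.Agent.L7h67.WA.H_upper k (ι := Fin 0) (fun i => i.elim0) F0 (fun i => i.elim0) (3 * A)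
    (fun i => i.elim0) hF0 (fun i => i.elim0) (by omega)
  have hH' := hpow.eventually hH
  obtain ⟨H, hHdef⟩ : ∃ H : ℕ → ℝ, ∀ l, H l = F0.eval (7 / 2 * ((A : ℝ) * (2 : ℝ) ^ l)) := ⟨_, fun l => rfl⟩
  have hHt : Tendsto H atTop atTop := by
    have h1 := (Pool.Agent.L7h67.WA.H_tendsto k (ι := Fin 0) (by omega) (fun i => i.elim0) F0
      (fun i => i.elim0) A (fun i => i.elim0) hF0 hl0 (fun i => i.elim0) hA1' (7 / 2) (by norm_num)).comp hpow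
    refine h1.congr (fun l => ?_)
    rw [hHdef]
    simp
  have E9 := hHt.eventually (eventually_ge_atTop 1)
  obtain ⟨l₀, hl₀⟩ := eventually_atTop.1 ((eventually_ge_atTop M).and (hCA.and (hCB.and (G1.and (G2.and (G3.and
    (G4.and (G5.and (G6.and (B1.and (B2.and (hH'.and E9))))))))))))
  filter_upwards [catch_seq H hHt l₀] with τ hτ
  obtain ⟨l, hl, hτ1, hτ2⟩ := hτ
  obtain ⟨m1, cA, cB, g1, g2, g3, g4, g5, g6, b1, b2, hup, h1⟩ := hl₀ l hl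
  rw [hHdef] at hτ2
  have hcast : (((2 : ℕ) ^ l : ℕ) : ℝ) = (2 : ℝ) ^ l := by push_cast; ring
  rw [hcast] at g1 g2 g3 g4 g5 g6 hup
  obtain ⟨P, hP⟩ : ∃ P : ℝ, P = (2 : ℝ) ^ l := ⟨_, rfl⟩
  rw [← hP] at g1 g2 g3 g4 g5 g6 hup b1 b2 cA cB
  have hP0 : 0 < P := by rw [hP]; positivity
  have hPk : 0 < P ^ k := by positivity
  have hCP : 0 ≤ C * P ^ k := by positivity
  have hτ1' : 1 ≤ τ := h1.trans hτ1
  rw [hHdef, ← hP] at hτ1
  have hτ2' : τ ≤ F0.eval (7 * (A * P)) := by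
    refine hτ2.trans (le_of_eq ?_)
    congr 1
    rw [pow_succ, ← hP]; ring
  have hup' : F0.eval (9 * (A * P)) ≤ P ^ (k + 1) := by
    refine le_trans (le_of_eq ?_) hup
    simp only [univ_eq_empty, sum_empty, zero_add]
    congr 1
    push_cast; ring
  have hτP : τ ≤ P ^ (k + 1) := by linarith
  have hGG : ∀ x ∈ XA l, ∀ y ∈ XB l, |GA x + GB y| ≤ C * P ^ k := by
    intro x hx y hy
    refine (abs_add_le _ _).trans ?_
    rw [hC, add_mul]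
    have h2 := cA x hx
    have h3 := cB y hy
    have h4 : CA * P ^ k ≤ |CA| * P ^ k := mul_le_mul_of_nonneg_right (le_abs_self _) hPk.le
    have h5 : CB * P ^ k ≤ |CB| * P ^ k := mul_le_mul_of_nonneg_right (le_abs_self _) hPk.le
    linarith
  rcases le_or_gt τ (F0.eval (11 / 2 * (A * P))) with hle | hgt
  · obtain ⟨x, hx, y, hy, z, hz, h⟩ := b1 τ hτ1' hτP (by
      intro x hx y hy
      have h2 := abs_le.1 (hGG x hx y hy)
      have e1 : F0.eval (3 / 2 * (((2 * A : ℕ) : ℝ) * P)) = F0.eval (3 * (A * P)) := by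
        congr 1; push_cast; ring
      have e2 : F0.eval (3 * (((2 * A : ℕ) : ℝ) * P)) = F0.eval (6 * (A * P)) := by
        congr 1; push_cast; ring
      rw [e1, e2]
      constructor <;> linarith [h2.1, h2.2])
    exact ⟨l, m1, x, hx, y, hy, z, hz, h⟩
  · obtain ⟨x, hx, y, hy, z, hz, h⟩ := b2 τ hτ1' hτP (by
      intro x hx y hy
      have h2 := abs_le.1 (hGG x hx y hy)
      have e1 : F0.eval (3 / 2 * (((3 * A : ℕ) : ℝ) * P)) = F0.eval (9 / 2 * (A * P)) := by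
        congr 1; push_cast; ring
      have e2 : F0.eval (3 * (((3 * A : ℕ) : ℝ) * P)) = F0.eval (9 * (A * P)) := by
        congr 1; push_cast; ring
      rw [e1, e2]
      constructor <;> linarith [h2.1, h2.2])
    exact ⟨l, m1, x, hx, y, hy, z, hz, h⟩

end Pool.Agent.L7h67.WB
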