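import Mathlib
import Pool.Agent.L7h67.WB.MvsB
import Pool.Agent.L7h67.WA.Weyl
import Pool.Agent.L7h37.WA.Slice

set_option autoImplicit false

namespace Pool.Agent.L7h67.WB

open Finset MeasureTheory Polynomial Filter
open Pool.Agent.L7h67.WA (ev_small)

lemma final_factor (k J : ℕ) (hk : 5 ≤ k) (R K C ε δ : ℝ) (hR : 1 ≤ R) (hK : 1 ≤ K) (hC : 1 ≤ C)
    (hε : 0 < ε) (hδ : δ = ε / (8 * (4 * J + 1))) :
    ∀ᶠ P : ℕ in atTop, 1000 * R * (P : ℝ) ^ δ * (K * (((P : ℝ) ^ δ) ^ 2) ^ (2 * J)) *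
      (1 + Real.log (2 * C * (P : ℝ) ^ (k - 1))) ≤ (P : ℝ) ^ (ε / 2) := by
  obtain ⟨η, hη⟩ : ∃ η : ℝ, η = ε / (8 * ((k - 1 : ℕ) : ℝ)) := ⟨_, rfl⟩
  have hk1 : (0 : ℝ) < ((k - 1 : ℕ) : ℝ) := by exact_mod_cast (by omega : 0 < k - 1)
  have hη0 : 0 < η := by rw [hη]; positivity
  obtain ⟨D, hD⟩ : ∃ D : ℝ, D = 1000 * R * K * (1 + (2 * C) ^ η / η) := ⟨_, rfl⟩
  filter_upwards [ev_small D 1 (ε / 4) one_pos (by linarith), eventually_ge_atTop 1] with P hP1 hP2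
  have hP : (1 : ℝ) ≤ P := by exact_mod_cast hP2
  have hP0 : (0 : ℝ) < P := by linarith
  have e1 : (P : ℝ) ^ δ * (((P : ℝ) ^ δ) ^ 2) ^ (2 * J) = (P : ℝ) ^ (ε / 8) := by
    rw [← pow_mul, ← Real.rpow_natCast ((P : ℝ) ^ δ), ← Real.rpow_mul hP0.le, ← Real.rpow_add hP0]
    congr 1
    rw [hδ]
    push_cast
    have : (4 * (J : ℝ) + 1) ≠ 0 := by positivity
    field_simp
    ring
  have h1 : Real.log (2 * C * (P : ℝ) ^ (k - 1)) ≤ (2 * C) ^ η / η * (P : ℝ) ^ (ε / 8) := by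
    have h2 := Real.log_le_rpow_div (x := 2 * C * (P : ℝ) ^ (k - 1)) (by positivity) hη0
    refine h2.trans (le_of_eq ?_)
    rw [Real.mul_rpow (by positivity) (by positivity), ← Real.rpow_natCast, ← Real.rpow_mul hP0.le]
    have e2 : ((k - 1 : ℕ) : ℝ) * η = ε / 8 := by
      rw [hη]; field_simp
    rw [e2]; ring
  have h3 : 1 ≤ (P : ℝ) ^ (ε / 8) := Real.one_le_rpow hP (by linarith)
  have h4 : 1 + Real.log (2 * C * (P : ℝ) ^ (k - 1)) ≤ (1 + (2 * C) ^ η / η) * (P : ℝ) ^ (ε / 8) := by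
    linarith
  have e3 : (P : ℝ) ^ (ε / 8) * (P : ℝ) ^ (ε / 8) = (P : ℝ) ^ (-(ε / 4)) * (P : ℝ) ^ (ε / 2) := by
    rw [← Real.rpow_add hP0, ← Real.rpow_add hP0]; congr 1; ring
  calc 1000 * R * (P : ℝ) ^ δ * (K * (((P : ℝ) ^ δ) ^ 2) ^ (2 * J)) *
      (1 + Real.log (2 * C * (P : ℝ) ^ (k - 1)))
      = 1000 * R * K * ((P : ℝ) ^ δ * (((P : ℝ) ^ δ) ^ 2) ^ (2 * J)) *
        (1 + Real.log (2 * C * (P : ℝ) ^ (k - 1))) := by ring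
    _ = 1000 * R * K * (P : ℝ) ^ (ε / 8) * (1 + Real.log (2 * C * (P : ℝ) ^ (k - 1))) := by rw [e1]
    _ ≤ 1000 * R * K * (P : ℝ) ^ (ε / 8) * ((1 + (2 * C) ^ η / η) * (P : ℝ) ^ (ε / 8)) := by gcongr
    _ = D * ((P : ℝ) ^ (ε / 8) * (P : ℝ) ^ (ε / 8)) := by rw [hD]; ring
    _ = (D * (P : ℝ) ^ (-(ε / 4))) * (P : ℝ) ^ (ε / 2) := by rw [e3]; ring
    _ ≤ 1 * (P : ℝ) ^ (ε / 2) := by
      apply mul_le_mul_of_nonneg_right hP1.le (by positivity)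
    _ = (P : ℝ) ^ (ε / 2) := one_mul _

theorem mvs_R (hCt : S_COUNT) (hN : S_NUM) (hI : S_INT) (k J : ℕ) (hk : 5 ≤ k)
    (hρ : (((k : ℝ) - 2) / ((k : ℝ) - 1)) ^ J ≤ 1 / 2 - 1 / ((k : ℝ) - 1))
    (Φ Φ1 Φ2 : ℝ → ℝ → ℝ) (hF : Fam k Φ Φ1 Φ2) (R : ℝ) (hR : 1 ≤ R) (ε : ℝ) (hε : 0 < ε) :
    ∀ᵐ θ : ℝ, |θ| ≤ R → ∀ᶠ l : ℕ in atTop,
      ∀ Y : Finset ((Fin J → ℕ × ℕ) × (Fin J → ℕ × ℕ)), Y ⊆ blk k J ((2 : ℝ) ^ l) ×ˢ blk k J ((2 : ℝ) ^ l) →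
      (∀ p ∈ Y, |gb (Φ θ) p.1 - gb (Φ θ) p.2| ≤ ((2 : ℝ) ^ l) ^ (ε / (8 * (4 * J + 1)))) →
      (#Y : ℝ) ≤ (#(blk k J ((2 : ℝ) ^ l)) : ℝ) ^ 2 * ((2 : ℝ) ^ l) ^ (-(k : ℝ) + ε) := by
  obtain ⟨C, K, P₀, hC, hK, hP₀, hnb⟩ := nb hCt hN k J hk hρ Φ Φ1 Φ2 hF R
  obtain ⟨δ, hδ⟩ : ∃ δ : ℝ, δ = ε / (8 * (4 * J + 1)) := ⟨_, rfl⟩
  have hδ0 : 0 ≤ δ := by rw [hδ]; positivity
  rw [← hδ]
  have hpown : Tendsto (fun l : ℕ => (2 : ℕ) ^ l) atTop atTop :=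
    tendsto_pow_atTop_atTop_of_one_lt (by norm_num)
  have hpow : Tendsto (fun l : ℕ => (2 : ℝ) ^ l) atTop atTop :=
    tendsto_pow_atTop_atTop_of_one_lt (by norm_num)
  have hfac := hpown.eventually (final_factor k J hk R K C ε δ hR hK hC hε hδ)
  have hbc := Pool.Agent.L7h37.WA.s_BC ℝ volume ((Fin J → ℕ × ℕ) × (Fin J → ℕ × ℕ))
    (fun l => blk k J ((2 : ℝ) ^ l) ×ˢ blk k J ((2 : ℝ) ^ l))
    (fun l p => {θ : ℝ | |θ| ≤ R ∧ |gb (Φ θ) p.1 - gb (Φ θ) p.2| ≤ ((2 : ℝ) ^ l) ^ δ})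
    (fun l => (#(blk k J ((2 : ℝ) ^ l)) : ℝ) ^ 2 * ((2 : ℝ) ^ l) ^ (-(k : ℝ) + ε))
    (fun l => ((2 : ℝ) ^ l) ^ (-(ε / 2))) ?_ ?_ ?_ ?_ ?_
  · filter_upwards [hbc] with θ hθ hθR
    filter_upwards [hθ] with l hl Y hY hYc
    exact hl Y hY (fun p hp => ⟨hθR, hYc p hp⟩)
  · intro l p _
    have hc : Continuous (fun θ : ℝ => gb (Φ θ) p.1 - gb (Φ θ) p.2) := by
      apply Continuous.sub
      · exact continuous_iff_continuousAt.2 fun θ => (gb_deriv J Φ Φ1 hF.1 p.1 θ).continuousAt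
      · exact continuous_iff_continuousAt.2 fun θ => (gb_deriv J Φ Φ1 hF.1 p.2 θ).continuousAt
    exact ((isClosed_le continuous_abs continuous_const).inter
      (isClosed_le hc.abs continuous_const)).measurableSet
  · intro l
    have h1 : (1 : ℝ) ≤ (2 : ℝ) ^ l := one_le_pow₀ (by norm_num)
    have h2 := blk_card k hk J _ h1
    have h3 : 0 < ∏ i ∈ range J, qs k ((2 : ℝ) ^ l) i ^ 2 := by
      apply prod_pos
      intro i _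
      have := qs_ge_one k hk _ h1 i
      positivity
    have h4 : (0 : ℝ) < #(blk k J ((2 : ℝ) ^ l)) := lt_of_lt_of_le h3 h2
    positivity
  · intro l
    positivity
  · have h1 : ∀ l : ℕ, ((2 : ℝ) ^ l) ^ (-(ε / 2)) = ((2 : ℝ) ^ (-(ε / 2))) ^ l := by
      intro l
      rw [← Real.rpow_natCast, ← Real.rpow_natCast, ← Real.rpow_mul (by norm_num),
        ← Real.rpow_mul (by norm_num), mul_comm]
    simp only [h1]
    apply summable_geometric_of_lt_one (by positivity)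
    exact Real.rpow_lt_one_of_one_lt_of_neg (by norm_num) (by linarith)
  · filter_upwards [hpow.eventually (eventually_ge_atTop P₀), hfac] with l hl hfl
    obtain ⟨P, hP⟩ : ∃ P : ℝ, P = (2 : ℝ) ^ l := ⟨_, rfl⟩
    have hcast : (((2 : ℕ) ^ l : ℕ) : ℝ) = P := by rw [hP]; push_cast; ring
    rw [hcast] at hfl
    rw [← hP] at hl ⊢
    have hP1 : 1 ≤ P := hP₀.trans hl
    have hP0 : 0 < P := by linarith
    obtain ⟨hd, hcnt⟩ := hnb P hl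
    obtain ⟨N, hNdef⟩ : ∃ N : ℝ, N = (#(blk k J P) : ℝ) := ⟨_, rfl⟩
    have hN0 : 0 ≤ N := by rw [hNdef]; positivity
    have hPk2 : 1 ≤ P ^ (k - 2) := one_le_pow₀ hP1
    have hPk1 : P ^ (k - 2) ≤ P ^ (k - 1) := pow_le_pow_right₀ hP1 (by omega)
    have hM1 : 1 ≤ 2 * C * P ^ (k - 2) := by nlinarith
    have hL1 : 1 ≤ P ^ δ := Real.one_le_rpow hP1 hδ0
    have hint := hI ((Fin J → ℕ × ℕ) × (Fin J → ℕ × ℕ)) (blk k J P ×ˢ blk k J P)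
      (fun p θ => gb (Φ θ) p.1 - gb (Φ θ) p.2) (fun p θ => gb (Φ1 θ) p.1 - gb (Φ1 θ) p.2)
      (fun p θ => gb (Φ2 θ) p.1 - gb (Φ2 θ) p.2) R (2 * C * P ^ (k - 2)) (P ^ δ)
      (N ^ 2 * (K * ((P ^ δ) ^ 2) ^ (2 * J)) / P ^ k) (2 * C * P ^ (k - 1))
      (fun p θ => (gb_deriv J Φ Φ1 hF.1 p.1 θ).sub (gb_deriv J Φ Φ1 hF.1 p.2 θ))
      (fun p θ => (gb_deriv J Φ1 Φ2 hF.2.1 p.1 θ).sub (gb_deriv J Φ1 Φ2 hF.2.1 p.2 θ))
      hR hM1 hL1 (by positivity) (by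
        have h1 : Real.sqrt (2 * C * P ^ (k - 2)) ≤ 2 * C * P ^ (k - 2) := by
          apply Real.sqrt_le_iff.2
          constructor
          · linarith
          · nlinarith
        refine h1.trans ?_
        exact mul_le_mul_of_nonneg_left hPk1 (by linarith)) (by
        intro p hp θ hθ
        rw [mem_product] at hp
        refine (abs_sub _ _).trans ?_
        have h1 := (hd θ hθ p.1 hp.1).1
        have h2 := (hd θ hθ p.2 hp.2).1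
        linarith) (by
        intro p hp θ hθ
        rw [mem_product] at hp
        refine (abs_sub _ _).trans ?_
        have h1 := (hd θ hθ p.1 hp.1).2
        have h2 := (hd θ hθ p.2 hp.2).2
        linarith) (by
        intro θ hθ T hT1 hT2 X hX hXc
        have := hcnt (P ^ δ) hL1 θ hθ T hT1 hT2 X hX hXc
        rw [← hNdef] at this
        exact this)
    refine hint.trans (ENNReal.ofReal_le_ofReal ?_)
    rw [← hNdef]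
    have e1 : P ^ (-(ε / 2)) * (N ^ 2 * P ^ (-(k : ℝ) + ε)) = N ^ 2 / P ^ k * P ^ (ε / 2) := by
      have e2 : P ^ (-(k : ℝ) + ε) = P ^ ε / P ^ k := by
        rw [add_comm, ← sub_eq_add_neg, Real.rpow_sub hP0, Real.rpow_natCast]
      have e3 : P ^ (ε / 2) = P ^ (-(ε / 2)) * P ^ ε := by
        rw [← Real.rpow_add hP0]; congr 1; ring
      rw [e2, e3]; ring
    rw [e1]
    have h0 : 0 ≤ N ^ 2 / P ^ k := by positivity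
    calc 1000 * R * P ^ δ * (N ^ 2 * (K * ((P ^ δ) ^ 2) ^ (2 * J)) / P ^ k) *
        (1 + Real.log (2 * C * P ^ (k - 1)))
        = N ^ 2 / P ^ k * (1000 * R * P ^ δ * (K * ((P ^ δ) ^ 2) ^ (2 * J)) *
          (1 + Real.log (2 * C * P ^ (k - 1)))) := by ring
      _ ≤ N ^ 2 / P ^ k * P ^ (ε / 2) := mul_le_mul_of_nonneg_left hfl h0

theorem mvs_of (hCt : S_COUNT) (hN : S_NUM) (hI : S_INT) : S_MVS := by
  intro k J hk hρ Φ Φ1 Φ2 hF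
  have h1 : ∀ᵐ θ : ℝ, ∀ R n : ℕ, |θ| ≤ (R : ℝ) + 1 → ∀ᶠ l : ℕ in atTop,
      ∀ Y : Finset ((Fin J → ℕ × ℕ) × (Fin J → ℕ × ℕ)), Y ⊆ blk k J ((2 : ℝ) ^ l) ×ˢ blk k J ((2 : ℝ) ^ l) →
      (∀ p ∈ Y, |gb (Φ θ) p.1 - gb (Φ θ) p.2| ≤ ((2 : ℝ) ^ l) ^ ((1 / ((n : ℝ) + 1)) / (8 * (4 * J + 1)))) →
      (#Y : ℝ) ≤ (#(blk k J ((2 : ℝ) ^ l)) : ℝ) ^ 2 * ((2 : ℝ) ^ l) ^ (-(k : ℝ) + 1 / ((n : ℝ) + 1)) := by
    rw [ae_all_iff]
    intro R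
    rw [ae_all_iff]
    intro n
    exact mvs_R hCt hN hI k J hk hρ Φ Φ1 Φ2 hF (R + 1) (by
      have : (0 : ℝ) ≤ R := Nat.cast_nonneg R
      linarith) (1 / ((n : ℝ) + 1)) (by positivity)
  filter_upwards [h1] with θ hθ ε hε
  obtain ⟨R, hR⟩ := exists_nat_ge |θ|
  obtain ⟨n, hn⟩ := exists_nat_one_div_lt hε
  refine ⟨(1 / ((n : ℝ) + 1)) / (8 * (4 * J + 1)), by positivity, ?_⟩
  filter_upwards [hθ R n (by linarith)] with l hl Y hY hYc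
  refine (hl Y hY hYc).trans ?_
  apply mul_le_mul_of_nonneg_left _ (by positivity)
  apply Real.rpow_le_rpow_of_exponent_le (one_le_pow₀ (by norm_num))
  linarith

end Pool.Agent.L7h67.WB
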